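import Pool.Agent.ETPQ.Cl4
import Pool.Agent.ETE8.Basic

/-!
The output of the class analysis (sections 1, 3a-3c and the case `j = 1` of note 2842, helper88) in
the form wanted by helper14 (Pool/Agent/ETE8/Basic.lean), noise allowed.
-/

set_option autoImplicit false
set_option linter.unusedSimpArgs false
set_option linter.unnecessarySeqFocus false
set_option linter.unusedSectionVars false

namespace Pool.Agent.ETPQ

open Pool.Agent.ETPF (OS)
open Pool.Agent.ETPF.OS
open Pool.Agent.ETCP (ch2 ch3 ch4 eo)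
open Pool.Agent.ETPG (mkS)
open ETC (zm)

variable {W : Type} [AddCommGroup W] [Module (ZMod 2) W]

theorem exists_MY [Finite W] {O : OS W} (n3 : N3 O) : ∃ Y, MY O Y := by
  obtain ⟨Y, hY, hmax⟩ := Set.exists_max_image
    {Y : Submodule (ZMod 2) W | ∀ s, O.Sl s → s ∉ Y} (fun Y => Nat.card Y) (Set.toFinite _)
    ⟨⊥, fun s hs h => nz (by rwa [(Submodule.mem_bot _).1 h] at hs)⟩
  exact ⟨Y, n3, hY, fun Y' h => hmax Y' h⟩

namespace MY

variable {O : OS W} {Y : Submodule (ZMod 2) W} (M : MY O Y)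

include M

theorem one_of [Finite W] {v z : W} (hv : Bi O Y v) (hz : z ∈ Y) (hzD : z ∉ Dv O Y v) :
    O.Sl v ↔ ¬ O.Sl (v + z) := by
  obtain ⟨f, hf⟩ := hv.2.fn
  have h := M.dq_bi hv hz hf
  rw [hf.one hz hzD] at h
  by_cases h1 : O.Sl v
  · rw [qs_true h1] at h
    refine ⟨fun _ h2 => ?_, fun _ => h1⟩
    rw [qs_true h2] at h
    revert h; decide
  · rw [qs_false h1] at h
    refine ⟨fun h2 => absurd h2 h1, fun h2 => ?_⟩
    rw [qs_false h2] at h
    exact absurd h (by decide)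

open Classical in
/-- `j ≥ 2` -/
theorem clsA [Finite W] (X : G0 O) (hne : ∃ s, O.Sl s) {u u' : W} (hu : Bi O Y u)
    (hu' : Bi O Y u') (huu : Dv O Y u ≠ Dv O Y u') :
    ∃ z ∈ Y, ∃ l : Module.Dual (ZMod 2) W, l ≠ 0 ∧ l z = 0 ∧
      ∀ v, l v = 1 → (O.Sl v ↔ ¬ O.Sl (v + z)) := by
  obtain ⟨m, hm⟩ := M.ex_full X.sp hne
  obtain ⟨z, hz, hzu⟩ := hu.2.ex
  have noPP : ∀ x, x ∈ PP O Y → ¬ Bi O Y x := by
    intro x hx hb
    have h3 := (M.b3 X hu hu' huu hb hm).1
    have h4 := hx m hm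
    rw [add_comm] at h4
    exact h4.not_Bu h3.1
  have st : ∀ x, ¬ Bi O Y x → x ∈ PP O Y ∨ Fu O Y x := by
    intro x hx
    by_cases h : x ∈ Y
    · exact Or.inl (M.Y_le_PP h)
    · rcases Fu_or h with h1 | h1
      · exact Or.inr h1
      · left
        by_contra h2
        exact hx (M.bi_PP h1 h2)
  have K1 : ∀ x x', ¬ Bi O Y x → ¬ Bi O Y x' → ¬ Bi O Y (x + x') := by
    intro x x' hx hx'
    rcases st x hx with h | h
    · rcases st x' hx' with h' | h'
      · exact noPP _ ((PP O Y).add_mem h h')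
      · intro h2
        have h3 := h x' h'
        rw [add_comm] at h3
        exact h3.not_Bu h2.1
    · rcases st x' hx' with h' | h'
      · exact fun h2 => (h' x h).not_Bu h2.1
      · intro h2
        have h3 := (M.b3 X hu hu' huu h2 h).1
        rw [show x + x' + x = x' from eo (by
          abel_nf <;> simp only [ch2, ch3, ch4, add_zero, zero_add])] at h3
        exact h'.not_Bu h3.1
  have K2 : ∀ x x', Bi O Y x → ¬ Bi O Y x' → Bi O Y (x + x') ∧ Dv O Y (x + x') = Dv O Y x := by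
    intro x x' hx hx'
    rcases st x' hx' with h' | h'
    · have := M.shift X hm h' hx (fun h => noPP x h hx)
      rw [add_comm x' x] at this
      exact ⟨this.1, this.2.2⟩
    · exact M.b3 X hu hu' huu hx h'
  have K4 : ∀ x x', Bi O Y x → Bi O Y x' → Dv O Y x = Dv O Y x' → ¬ Bi O Y (x + x') := by
    intro x x' hx hx' h
    by_cases h2 : Dv O Y u = Dv O Y x
    · exact M.a3' hx hx' h hu' (by rw [← h2]; exact huu.symm)
    · exact M.a3' hx hx' h hu h2
  let F : W → ZMod 2 := fun x => if Bi O Y x ∧ z ∉ Dv O Y x then 1 else 0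
  have F1 : ∀ x, Bi O Y x → ∀ f : Module.Dual (ZMod 2) W, Fk f (Dv O Y x) Y → F x = f z := by
    intro x hx f hf
    by_cases h : z ∈ Dv O Y x
    · rw [(hf z hz).2 h]
      exact if_neg fun h' => h'.2 h
    · rw [hf.one hz h]
      exact if_pos ⟨hx, h⟩
  have F0 : ∀ x, ¬ Bi O Y x → F x = 0 := fun x hx => if_neg fun h => hx h.1
  have Fa : ∀ x x', F (x + x') = F x + F x' := by
    intro x x'
    by_cases hx : Bi O Y x
    · obtain ⟨f, hf⟩ := hx.2.fn
      by_cases hx' : Bi O Y x'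
      · obtain ⟨g, hg⟩ := hx'.2.fn
        by_cases hne : Dv O Y x = Dv O Y x'
        · rw [F0 _ (K4 x x' hx hx' hne), F1 x hx f hf, F1 x' hx' g hg]
          rw [← hne] at hg
          rw [hf.eqOn hg hz, tt]
        · rw [F1 _ (M.a3 hx hx' hne).1 _ (M.a3f hx hx' hne hf hg), F1 x hx f hf,
            F1 x' hx' g hg, LinearMap.add_apply]
      · obtain ⟨h1, h2⟩ := K2 x x' hx hx'
        rw [F1 _ h1 f (by rwa [h2]), F1 x hx f hf, F0 x' hx', add_zero]
    · by_cases hx' : Bi O Y x'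
      · obtain ⟨g, hg⟩ := hx'.2.fn
        obtain ⟨h1, h2⟩ := K2 x' x hx' hx
        rw [add_comm x' x] at h1 h2
        rw [F1 _ h1 g (by rwa [h2]), F1 x' hx' g hg, F0 x hx, zero_add]
      · rw [F0 _ (K1 x x' hx hx'), F0 x hx, F0 x' hx', add_zero]
  let l : Module.Dual (ZMod 2) W :=
    { toFun := F
      map_add' := Fa
      map_smul' := by
        intro r x
        rcases zm r with rfl | rfl
        · rw [zero_smul, RingHom.id_apply, zero_smul]
          exact F0 0 fun h => h.1.1 Y.zero_mem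
        · rw [one_smul, RingHom.id_apply, one_smul] }
  refine ⟨z, hz, l, ?_, F0 z (fun h => h.1.1 hz), fun v hv => ?_⟩
  · intro h
    have h1 : F u = 1 := if_pos ⟨hu, hzu⟩
    have h2 : F u = 0 := by
      have := congrArg (fun k : Module.Dual (ZMod 2) W => k u) h
      exact this
    rw [h1] at h2
    exact one_ne_zero h2
  · have hv' : Bi O Y v ∧ z ∉ Dv O Y v := by
      by_contra hcon
      have h2 : F v = 0 := if_neg hcon
      rw [show l v = F v from rfl, h2] at hv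
      exact zero_ne_one hv
    exact M.one_of hv'.1 hz hv'.2

/-- `j = 1` -/
theorem clsB [Finite W] (X : G0 O) (hne : ∃ s, O.Sl s) {v0 : W} (h0 : Bi O Y v0)
    (h : ∀ v, Bi O Y v → Dv O Y v = Dv O Y v0) :
    ∃ z ∈ Y, z ∈ PP O Y ∧ (∀ v, v ∉ PP O Y → O.Sl v ∨ O.Sl (v + z)) ∧
      ∀ v, O.Sl v → O.Sl (v + z) → ∀ p ∈ PP O Y, O.Sl (v + p) := by
  obtain ⟨m, hm⟩ := M.ex_full X.sp hne
  obtain ⟨z, hz, hz0⟩ := h0.2.ex
  refine ⟨z, hz, M.Y_le_PP hz, fun v hv => ?_, fun v sv svz p hp => ?_⟩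
  · have hvY : v ∉ Y := fun h1 => hv (M.Y_le_PP h1)
    rcases Fu_or hvY with h1 | h1
    · exact Or.inl (M.fu_slot h1)
    · have b := M.bi_PP h1 hv
      have := M.one_of b hz (by rw [h v b]; exact hz0)
      tauto
  · have hzv : z ∈ Dv O Y v := M.of_slot sv hz svz
    rcases Fu_or (M.av v sv) with h1 | h1
    · exact M.fu_slot (hp v h1)
    · exfalso
      by_cases hi : Ix (Dv O Y v) Y
      · rw [h v ⟨h1, hi⟩] at hzv
        exact hz0 hzv
      · have hvP : v ∈ PP O Y := fun m' hm' => M.b1 h1 hi hm'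
        obtain ⟨v1, w1, hv1, hw1, hf⟩ := M.pr X hne
        have hv1P : v1 ∉ PP O Y := by
          intro h2
          have := h2 _ hf
          rw [show v1 + w1 + v1 = w1 from eo (by
            abel_nf <;> simp only [ch2, ch3, ch4, add_zero, zero_add])] at this
          exact this.not_Bu hw1
        have b := M.bi_PP hv1 hv1P
        have h3 := M.le_shift X hm hvP (M.av v sv) b hv1P hzv
        rw [h v1 b] at h3
        exact hz0 h3

end MY

/-- the class analysis for a one-symbol structure -/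
theorem cls_os [Finite W] {O : OS W} (X : G0 O) (hne : ∃ s, O.Sl s) (n3 : N3 O) :
    ∃ z, ¬ O.Sl z ∧
      ((∃ l : Module.Dual (ZMod 2) W, l ≠ 0 ∧ l z = 0 ∧
        ∀ v, l v = 1 → (O.Sl v ↔ ¬ O.Sl (v + z))) ∨
      (∃ P : Submodule (ZMod 2) W, z ∈ P ∧ (∀ v, v ∉ P → O.Sl v ∨ O.Sl (v + z)) ∧
        ∀ v, O.Sl v → O.Sl (v + z) → ∀ p ∈ P, O.Sl (v + p))) := by
  obtain ⟨Y, M⟩ := exists_MY n3
  obtain ⟨v0, h0⟩ := M.exBi X hne
  by_cases h : ∀ v, Bi O Y v → Dv O Y v = Dv O Y v0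
  · obtain ⟨z, h1, h2, h3, h4⟩ := M.clsB X hne h0 h
    exact ⟨z, M.nslot h1, Or.inr ⟨PP O Y, h2, h3, h4⟩⟩
  · push Not at h
    obtain ⟨u, hu, huu⟩ := h
    obtain ⟨z, h1, h2⟩ := M.clsA X hne hu h0 huu
    exact ⟨z, M.nslot h1, Or.inl h2⟩

end Pool.Agent.ETPQ

namespace Pool.Agent.ETE8

open Pool.Agent.ETPQ

variable {V : Type} [AddCommGroup V] [Module (ZMod 2) V]

/-- the one-symbol structure -/
def OC.os (O : OC V) : ETPF.OS V where
  Z := O.Z
  C := O.C
  zs := O.zs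
  cs := O.cs
  zz := O.zz
  z0 := O.z0
  za := O.za
  cc := O.cc
  cz := O.cz
  ne := O.ne
  link := O.link

theorem OC.exists_slot (O : OC V) : ∃ s, O.Sl s := by
  obtain ⟨s, r, h, -⟩ := O.cov 0
  exact ⟨s, r, h⟩

/-- **the class analysis** -/
theorem cls [Finite V] (O : OC V) (h3 : O.N3) (hp : ¬ O.HP) : O.Cls := by
  refine cls_os (O := O.os) ⟨fun v => ?_, fun l hl => ?_⟩ O.exists_slot h3
  · exact O.sp _ (fun a r h => Submodule.subset_span (⟨r, h⟩ : O.os.Sl a)) v
  · by_contra hcon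
    push Not at hcon
    exact hp ⟨l, hl, hcon⟩

end Pool.Agent.ETE8
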