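import Pool.Agent.ETPN.C73
import Pool.Agent.ETPT.FL

/-!
One-symbol geometries `OS` on a space `W`, linked at the one symbol `c` only: basic facts
(symmetry lemma, types, masses), for the proof that (3N) at one symbol refutes a structure with
`K4At` (notes 2842 of helper88, 2847 of helper93).
-/

set_option autoImplicit false
set_option linter.unusedSimpArgs false
set_option linter.unnecessarySeqFocus false
set_option linter.unusedSectionVars false

namespace Pool.Agent.ETPQ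

open Pool.Agent.ETPF (OS)
open Pool.Agent.ETPF.OS
open Pool.Agent.ETCP (ch2 ch3 ch4 eo)
open Pool.Agent.ETPG (mkS)
open ETC (ind ind_true ind_false ind_and ind_congr ind_nonneg ind_le sum_ind_shift sg zm)

variable {W : Type} [AddCommGroup W] [Module (ZMod 2) W]

/-- the stabilizer of the set of slots -/
def St (O : OS W) : Submodule (ZMod 2) W :=
  mkS (fun g => ∀ s, O.Sl s → O.Sl (s + g)) (fun s h => by rwa [add_zero])
    fun a b h h' s hs => by rw [← add_assoc]; exact h' _ (h _ hs)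

theorem mem_St {O : OS W} {g : W} : g ∈ St O ↔ ∀ s, O.Sl s → O.Sl (s + g) := Iff.rfl

/-- the standing hypotheses: the slots span `W`; no hyperplane has a complement of slots; the set
of slots is not a union of two nonempty sets `P`, `P'` with `P + P'` in the set of slots; no slot
`x` has `x + S ⊆ S ∪ Stab` -/
structure Geo (O : OS W) : Prop where
  sp : ∀ v, v ∈ Submodule.span (ZMod 2) {s | O.Sl s}
  nhp : ∀ l : Module.Dual (ZMod 2) W, l ≠ 0 → ∃ v, l v = 1 ∧ ¬ O.Sl v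
  cn : ∀ P : W → Prop, (∃ s, O.Sl s ∧ P s) → (∃ s, O.Sl s ∧ ¬ P s) →
    ∃ s t, O.Sl s ∧ O.Sl t ∧ P s ∧ ¬ P t ∧ ¬ O.Sl (s + t)
  nu : ∀ x, O.Sl x → ∃ s, O.Sl s ∧ ¬ O.Sl (s + x) ∧ s + x ∉ St O

section
variable {O : OS W}

theorem nz : ¬ O.Sl 0 := by
  rintro ⟨r, hr⟩
  exact O.ne hr (z0' r)

theorem ne_zero {s : W} (hs : O.Sl s) : s ≠ 0 := by
  rintro rfl
  exact nz hs

theorem C_shift {s r v : W} (h : O.C s r) : O.C s (v + r) ↔ O.Z s v := by
  constructor
  · intro h1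
    have h2 := O.cc h1 h
    rwa [add_assoc, ZModModule.add_self, add_zero] at h2
  · intro h1
    exact zc h1 h

theorem Z_shift {s r v : W} (h : O.Z s r) : O.Z s (v + r) ↔ O.Z s v := by
  constructor
  · intro h1
    have h2 := O.za h1 h
    rwa [add_assoc, ZModModule.add_self, add_zero] at h2
  · intro h1
    exact O.za h1 h

theorem C_iff {s r r' : W} (h : O.C s r) : O.C s r' ↔ O.Z s (r' + r) := by
  rw [← C_shift h, add_assoc, ZModModule.add_self, add_zero]

/-- slots are symmetric: `N_s` consists of slots -/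
theorem Sl.nb {s r : W} (h : O.C s r) : O.Sl r := Sl.right h

/-- the slot `s + x` for slots `s`, `x`, second form -/
theorem sl_add' {s t : W} (hs : O.Sl s) : O.Sl (s + t) ↔ ∃ r, O.C s r ∧ O.Z t r := by
  rw [add_comm, sl_add hs]
  exact ⟨fun ⟨r, h1, h2⟩ => ⟨r, h2, h1⟩, fun ⟨r, h1, h2⟩ => ⟨r, h2, h1⟩⟩

/-! ### every element commutes with a slot -/

theorem cm_add {a t : W} (ha : ∃ s, O.Sl s ∧ O.Z s a) (ht : O.Sl t) :
    ∃ s, O.Sl s ∧ O.Z s (a + t) := by
  obtain ⟨s, hs, hsa⟩ := ha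
  obtain ⟨y, h1, h2⟩ := common hs ht
  have h3 : O.Sl (y + a) := Sl.right (O.cz h1 hsa)
  have h5 : O.Sl (t + y) := Sl.right (O.cz (O.cs h2) (O.zz y))
  obtain ⟨u, h6, h7⟩ := common h3 h5
  refine ⟨u, Sl.right h6, ?_⟩
  have h8 := O.zs (cc' h6 h7)
  rwa [show y + a + (t + y) = a + t from eo (by
    abel_nf <;> simp only [ch2, ch3, ch4, add_zero, zero_add])] at h8

theorem cm_span (hne : ∃ s, O.Sl s) {v : W}
    (hv : v ∈ Submodule.span (ZMod 2) {s | O.Sl s}) : ∃ s, O.Sl s ∧ O.Z s v := by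
  have key : ∀ v ∈ Submodule.span (ZMod 2) {s | O.Sl s}, ∀ a, (∃ s, O.Sl s ∧ O.Z s a) →
      ∃ s, O.Sl s ∧ O.Z s (a + v) := by
    intro v hv
    induction hv using Submodule.span_induction with
    | mem x hx => intro a ha; exact cm_add ha hx
    | zero => intro a ha; rwa [add_zero]
    | add x y _ _ hx hy => intro a ha; rw [← add_assoc]; exact hy _ (hx _ ha)
    | smul r x _ hx =>
      intro a ha
      rcases zm r with rfl | rfl
      · rwa [zero_smul, add_zero]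
      · rw [one_smul]; exact hx _ ha
  obtain ⟨s, hs⟩ := hne
  have := key v hv 0 ⟨s, hs, O.z0 s⟩
  rwa [zero_add] at this

/-! ### counting -/

theorem ind_pos {P : Prop} (h : P) : 0 < ind P := by rw [ind_true h]; exact one_pos

theorem sum_pos {P : W → Prop} [Fintype W] {v : W} (h : P v) : 0 < ∑ v, ind (P v) :=
  Finset.sum_pos' (fun _ _ => ind_nonneg _) ⟨v, Finset.mem_univ _, ind_pos h⟩

theorem sum_zero {P : W → Prop} [Fintype W] (h : ∀ v, ¬ P v) : ∑ v, ind (P v) = 0 :=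
  Finset.sum_eq_zero fun v _ => ind_false (h v)

/-- `|V_s ∩ V_t|` -/
noncomputable def mm (O : OS W) [Fintype W] (s t : W) : ℤ := ∑ v, ind (O.Z s v ∧ O.Z t v)

/-- `|V_s|` -/
noncomputable def ms (O : OS W) [Fintype W] (s : W) : ℤ := ∑ v, ind (O.Z s v)

theorem ms_pos [Fintype W] (s : W) : 0 < ms O s := sum_pos (v := (0 : W)) (O.z0 s)

theorem mm_pos [Fintype W] (s t : W) : 0 < mm O s t :=
  sum_pos (v := (0 : W)) ⟨O.z0 s, O.z0 t⟩

theorem cnt_CC [Fintype W] {s t : W} (hs : O.Sl s) (ht : O.Sl t) :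
    ∑ v, ind (O.C s v ∧ O.C t v) = mm O s t := by
  obtain ⟨r, h1, h2⟩ := common hs ht
  refine sum_ind_shift _ _ r fun v => ?_
  rw [C_shift h1, C_shift h2]

theorem cnt_ZC [Fintype W] {s t r : W} (h : O.Z s r) (h' : O.C t r) :
    ∑ v, ind (O.Z s v ∧ O.C t v) = mm O s t := by
  refine sum_ind_shift _ _ r fun v => ?_
  rw [Z_shift h, C_shift h']

theorem cnt_ZC_le [Fintype W] (s t : W) : ∑ v, ind (O.Z s v ∧ O.C t v) ≤ mm O s t := by
  by_cases h : ∃ r, O.Z s r ∧ O.C t r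
  · obtain ⟨r, h1, h2⟩ := h
    exact (cnt_ZC h1 h2).le
  · rw [sum_zero fun v hv => h ⟨v, hv⟩]
    exact (mm_pos s t).le

theorem cnt_C [Fintype W] {s : W} (hs : O.Sl s) : ∑ v, ind (O.C s v) = ms O s := by
  obtain ⟨r, hr⟩ := hs
  exact sum_ind_shift _ _ r fun v => C_shift hr

/-! ### the symmetry lemma -/

/-- `y + V_d ⊆ S` -/
def Fm (O : OS W) (d y : W) : Prop := ∀ w, O.Z d w → O.Sl (y + w)

theorem Fm.slot {d y : W} (h : Fm O d y) : O.Sl y := by
  have := h 0 (O.z0 d)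
  rwa [add_zero] at this

theorem Fm.self {y d : W} (h : O.C d y) : Fm O d y := fun _ hw => Sl.right (O.cz h hw)

/-- **symmetry lemma** (note 1981) -/
theorem Fm.swap [Finite W] {y d : W} (hd : O.Sl d) (h : Fm O d y) : Fm O y d := by
  have := Fintype.ofFinite W
  have hy := h.slot
  -- both sums count the pairs
  have key : ∀ {y d : W}, O.Sl d →
      ∑ w, ind (O.Z d w) * ∑ r, ind (O.Z w r ∧ O.C y r) =
        ∑ r, ∑ t, ind (O.C y r ∧ (O.C r t ∧ O.C d t)) := by
    intro y d hd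
    simp only [Finset.mul_sum]
    rw [Finset.sum_comm]
    refine Finset.sum_congr rfl fun r _ => ?_
    by_cases hr : O.C y r
    · have e1 : ∑ w, ind (O.Z d w) * ind (O.Z w r ∧ O.C y r) = mm O d r := by
        unfold mm
        refine Finset.sum_congr rfl fun w _ => ?_
        rw [← ind_and]
        exact ind_congr ⟨fun h => ⟨h.1, O.zs h.2.1⟩, fun h => ⟨h.1, O.zs h.2, hr⟩⟩
      rw [e1, ← cnt_CC hd (Sl.right hr)]
      exact Finset.sum_congr rfl fun t _ => ind_congr ⟨fun h => ⟨hr, h.2, h.1⟩,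
        fun h => ⟨h.2.2, h.2.1⟩⟩
    · rw [Finset.sum_eq_zero fun w _ => ?_, sum_zero fun t h => hr h.1]
      rw [ind_false (P := O.Z w r ∧ O.C y r) fun h => hr h.2, mul_zero]
  have e0 : ∑ w, ind (O.Z d w) * ∑ r, ind (O.Z w r ∧ O.C y r) =
      ∑ w, ind (O.Z y w) * ∑ r, ind (O.Z w r ∧ O.C d r) := by
    rw [key hd, key hy, Finset.sum_comm]
    refine Finset.sum_congr rfl fun t _ => Finset.sum_congr rfl fun r _ => ind_congr ?_
    exact ⟨fun ⟨h1, h2, h3⟩ => ⟨h3, O.cs h2, h1⟩, fun ⟨h1, h2, h3⟩ => ⟨h3, O.cs h2, h1⟩⟩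
  have e1 : ∑ w, ind (O.Z d w) * ∑ r, ind (O.Z w r ∧ O.C y r) =
      ∑ w, ind (O.Z d w) * mm O w y := by
    refine Finset.sum_congr rfl fun w _ => ?_
    by_cases hw : O.Z d w
    · obtain ⟨r, h1, h2⟩ := (sl_add' hy).1 (h w hw)
      rw [cnt_ZC h2 h1]
    · rw [ind_false hw, zero_mul, zero_mul]
  have e2 : ∑ w, ind (O.Z d w) * mm O w y = ∑ w, ind (O.Z y w) * mm O w d := by
    simp only [mm, Finset.mul_sum, ← ind_and]
    rw [Finset.sum_comm]
    refine Finset.sum_congr rfl fun t _ => Finset.sum_congr rfl fun r _ => ind_congr ?_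
    exact ⟨fun ⟨h1, h2, h3⟩ => ⟨h3, O.zs h2, h1⟩, fun ⟨h1, h2, h3⟩ => ⟨h3, O.zs h2, h1⟩⟩
  have e3 : ∑ w, ind (O.Z y w) * ∑ r, ind (O.Z w r ∧ O.C d r) =
      ∑ w, ind (O.Z y w) * mm O w d := by rw [← e0, e1, e2]
  intro w hw
  have e4 := (Finset.sum_eq_sum_iff_of_le fun w _ =>
    mul_le_mul_of_nonneg_left (cnt_ZC_le (O := O) w d) (ind_nonneg (O.Z y w))).1 e3 w
    (Finset.mem_univ _)
  rw [ind_true hw, one_mul, one_mul] at e4
  by_contra hcon
  rw [sum_zero fun r hr => hcon ((sl_add' hd).2 ⟨r, hr.2, hr.1⟩)] at e4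
  exact absurd e4 (mm_pos w d).ne

/-! ### types -/

/-- `s` is a slot with `V_s ⊆ ker l` -/
def Kl (O : OS W) (l : Module.Dual (ZMod 2) W) (s : W) : Prop :=
  O.Sl s ∧ ∀ v, O.Z s v → l v = 0

theorem Kl.const {l : Module.Dual (ZMod 2) W} {s r r' : W} (h : Kl O l s) (hr : O.C s r)
    (hr' : O.C s r') : l r = l r' := by
  have := h.2 _ (O.cc hr hr')
  rw [map_add] at this
  exact ETC.eq_of_add_eq_zero this

/-- the type of a functional -/
theorem Kl.type {l : Module.Dual (ZMod 2) W} {s t r r' : W} (h : Kl O l s) (h' : Kl O l t)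
    (hr : O.C s r) (hr' : O.C t r') : l r = l r' := by
  obtain ⟨u, h1, h2⟩ := common h.1 h'.1
  rw [h.const hr h1, h'.const hr' h2]

theorem Kl.self {l : Module.Dual (ZMod 2) W} {s : W} (h : Kl O l s) : l s = 0 :=
  h.2 s (O.zz s)

/-- all `r ∈ N_s`, `s` a slot with `V_s ⊆ ker l`, have `l r = a` -/
def Tp (O : OS W) (l : Module.Dual (ZMod 2) W) (a : ZMod 2) : Prop :=
  ∀ s r, Kl O l s → O.C s r → l r = a

theorem Tp.of {l : Module.Dual (ZMod 2) W} {s r : W} (h : Kl O l s) (hr : O.C s r) :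
    Tp O l (l r) := fun _ _ h1 h2 => h1.type h h2 hr

theorem exists_Tp (O : OS W) (l : Module.Dual (ZMod 2) W) : ∃ a, Tp O l a := by
  by_cases h : ∃ s r, Kl O l s ∧ O.C s r
  · obtain ⟨s, r, h1, h2⟩ := h
    exact ⟨_, Tp.of h1 h2⟩
  · exact ⟨0, fun s r h1 h2 => absurd ⟨s, r, h1, h2⟩ h⟩

/-- the slots with `V_s ⊆ ker l`, `l` of type `1`, have pairwise non-slot sums -/
theorem Tp.clique {l : Module.Dual (ZMod 2) W} (h : Tp O l 1) {s t : W} (hs : Kl O l s)
    (ht : Kl O l t) : ¬ O.Sl (s + t) := by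
  intro h1
  obtain ⟨r, h2, h3⟩ := (sl_add ht.1).1 h1
  have h4 := hs.2 r h2
  rw [h t r ht h3] at h4
  exact one_ne_zero h4

theorem ann_sum [Fintype W] {l : Module.Dual (ZMod 2) W} {s : W} (h : ∀ v, O.Z s v → l v = 0) :
    ∑ v, ind (O.Z s v) * sg (l v) = ms O s := by
  refine Finset.sum_congr rfl fun v _ => ?_
  by_cases hv : O.Z s v
  · rw [h v hv, ETC.sg_zero, mul_one]
  · rw [ind_false hv, zero_mul]

theorem ann_sum_zero [Fintype W] {l : Module.Dual (ZMod 2) W} {s x : W} (h : O.Z s x)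
    (hx : l x = 1) : ∑ v, ind (O.Z s v) * sg (l v) = 0 :=
  ETPN.pd_zero (fun v => O.Z s v) (fun _ _ h1 h2 => O.za h1 h2) l h hx

/-- `∑_{t ∈ N_s} (-1)^{l t}` -/
theorem row [Fintype W] {l : Module.Dual (ZMod 2) W} {a : ZMod 2} (h : Tp O l a) (s : W) :
    ∑ t, ind (O.C s t) * sg (l t) = ind (Kl O l s) * (ms O s * sg a) := by
  by_cases hs : O.Sl s
  · obtain ⟨r, hr⟩ := hs
    have hs : O.Sl s := ⟨r, hr⟩
    have e1 : ∑ t, ind (O.C s t) * sg (l t) = (∑ v, ind (O.Z s v) * sg (l v)) * sg (l r) := by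
      rw [← Equiv.sum_comp (Equiv.addRight r) (fun t => ind (O.C s t) * sg (l t)),
        Finset.sum_mul]
      refine Finset.sum_congr rfl fun v _ => ?_
      rw [Equiv.coe_addRight, ind_congr (C_shift hr), map_add, ETC.sg_add, mul_assoc]
    by_cases hk : ∀ v, O.Z s v → l v = 0
    · have hK : Kl O l s := ⟨hs, hk⟩
      rw [e1, ind_true hK, one_mul, h s r hK hr, ann_sum hk]
    · rw [ind_false fun hK : Kl O l s => hk hK.2, zero_mul, e1]
      push Not at hk
      obtain ⟨x, h1, h2⟩ := hk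
      rw [ann_sum_zero h1 ((zm _).resolve_left h2), zero_mul]
  · rw [ind_false fun hK : Kl O l s => hs hK.1, zero_mul]
    refine Finset.sum_eq_zero fun t _ => ?_
    rw [ind_false fun h1 : O.C s t => hs ⟨t, h1⟩, zero_mul]

/-- `∑_{s t = c} (-1)^{k s + l t}` in terms of the type of `l` -/
theorem X_row [Fintype W] {l : Module.Dual (ZMod 2) W} {a : ZMod 2} (h : Tp O l a)
    (k : Module.Dual (ZMod 2) W) :
    ∑ s, ∑ t, ind (O.C s t) * (sg (k s) * sg (l t)) =
      sg a * ∑ s, ind (Kl O l s) * (ms O s * sg (k s)) := by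
  rw [Finset.mul_sum]
  refine Finset.sum_congr rfl fun s _ => ?_
  calc ∑ t, ind (O.C s t) * (sg (k s) * sg (l t))
      = sg (k s) * ∑ t, ind (O.C s t) * sg (l t) := by
        rw [Finset.mul_sum]
        exact Finset.sum_congr rfl fun t _ => by ring
    _ = _ := by rw [row h]; ring

/-- the symmetry of `∑_{s t = c} (-1)^{k s + l t}` -/
theorem X_symm [Fintype W] {k l : Module.Dual (ZMod 2) W} {a b : ZMod 2} (hk : Tp O k b)
    (hl : Tp O l a) :
    sg a * ∑ s, ind (Kl O l s) * (ms O s * sg (k s)) =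
      sg b * ∑ s, ind (Kl O k s) * (ms O s * sg (l s)) := by
  rw [← X_row hl, ← X_row hk, Finset.sum_comm]
  refine Finset.sum_congr rfl fun s _ => Finset.sum_congr rfl fun t _ => ?_
  rw [ind_congr (⟨O.cs, O.cs⟩ : O.C t s ↔ O.C s t)]
  ring

/-- the mass of the slots with signs -/
theorem mass [Fintype W] {l : Module.Dual (ZMod 2) W} {a : ZMod 2} (hl : Tp O l a) :
    ∑ s, ind (O.Sl s) * (ms O s * sg (l s)) = sg a * ∑ s, ind (Kl O l s) * ms O s := by
  have e := X_row hl 0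
  simp only [LinearMap.zero_apply, ETC.sg_zero, mul_one, one_mul] at e
  rw [← e, Finset.sum_comm]
  refine Finset.sum_congr rfl fun t _ => ?_
  by_cases ht : O.Sl t
  · rw [ind_true ht, one_mul, ← cnt_C ht, Finset.sum_mul]
    exact Finset.sum_congr rfl fun s _ => by
      rw [ind_congr (⟨O.cs, O.cs⟩ : O.C t s ↔ O.C s t)]
  · rw [ind_false ht, zero_mul]
    refine (Finset.sum_eq_zero fun s _ => ?_).symm
    rw [ind_false fun h1 : O.C s t => ht (Sl.right h1), zero_mul]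

end

end Pool.Agent.ETPQ
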