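import Pool.Agent.ETPQ.Base

/-!
The cap case (section 4 of note 2847): a one-symbol geometry has no subgroup `G` of periods of the
set of slots, containing no slot, such that modulo `G` the nonzero non-slots form a cap.
-/

set_option autoImplicit false
set_option linter.unusedSimpArgs false
set_option linter.unnecessarySeqFocus false
set_option linter.unusedSectionVars false

namespace Pool.Agent.ETPQ.CapN

open Pool.Agent.ETPF (OS)
open Pool.Agent.ETPF.OS
open Pool.Agent.ETCP (ch2 ch3 ch4 eo)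
open Pool.Agent.ETPG (mkS)
open ETC (ind ind_true ind_false ind_and ind_congr ind_nonneg ind_le sum_ind_shift sg zm)

variable {W : Type} [AddCommGroup W] [Module (ZMod 2) W]

/-! ### functionals vanishing on a subspace -/

/-- `k` vanishes on `P` -/
def An (P : Submodule (ZMod 2) W) (k : Module.Dual (ZMod 2) W) : Prop := ∀ d, d ∈ P → k d = 0

theorem An.add {P : Submodule (ZMod 2) W} {k l : Module.Dual (ZMod 2) W} (h : An P k)
    (h' : An P l) : An P (k + l) := fun d hd => by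
  rw [LinearMap.add_apply, h d hd, h' d hd, add_zero]

/-- the number of functionals vanishing on `P` -/
noncomputable def NN [Finite W] (P : Submodule (ZMod 2) W) : ℤ := ∑ k : ETC.D W, ind (An P k)

theorem NN_pos [Finite W] (P : Submodule (ZMod 2) W) : 0 < NN P :=
  Finset.sum_pos' (fun _ _ => ind_nonneg _)
    ⟨0, Finset.mem_univ _, ind_pos (show An P (0 : Module.Dual (ZMod 2) W) from fun _ _ => rfl)⟩

theorem sumAn [Finite W] (P : Submodule (ZMod 2) W) (v : W) :
    ∑ k : ETC.D W, ind (An P k) * sg (k v) = ind (v ∈ P) * NN P := by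
  by_cases hv : v ∈ P
  · rw [ind_true hv, one_mul]
    refine Finset.sum_congr rfl fun k _ => ?_
    by_cases hk : An P k
    · rw [hk v hv, ETC.sg_zero, mul_one]
    · rw [ind_false hk, zero_mul]
  · rw [ind_false hv, zero_mul]
    obtain ⟨f, h1, h2⟩ := ETC.exists_dual_sep hv
    have := ETPN.pd_zero (V := ETC.D W) (fun k => An P k) (fun _ _ h h' => h.add h')
      (LinearMap.applyₗ (R := ZMod 2) v) (x := f) h2 h1
    simpa only [LinearMap.applyₗ_apply_apply] using this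

/-- the transform of the mass function -/
noncomputable def Mh (O : OS W) [Fintype W] (k : Module.Dual (ZMod 2) W) : ℤ :=
  ∑ s, ind (O.Sl s) * (ms O s * sg (k s))

/-- the mass of the slots of `x + P` -/
noncomputable def cD (O : OS W) [Fintype W] (P : Submodule (ZMod 2) W) (x : W) : ℤ :=
  ∑ s, ind (O.Sl s ∧ s + x ∈ P) * ms O s

theorem INV (O : OS W) [Fintype W] (P : Submodule (ZMod 2) W) (v : W) :
    ∑ k : ETC.D W, ind (An P k) * (Mh O k * sg (k v)) = NN P * cD O P v := by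
  have e : ∀ k : ETC.D W, ind (An P k) * (Mh O k * sg (k v)) =
      ∑ s, ind (O.Sl s) * ms O s * (ind (An P k) * sg (k (s + v))) := fun k => by
    rw [Mh, Finset.sum_mul, Finset.mul_sum]
    refine Finset.sum_congr rfl fun s _ => ?_
    rw [map_add, ETC.sg_add]; ring
  rw [Finset.sum_congr rfl fun k _ => e k, Finset.sum_comm, cD, Finset.mul_sum]
  refine Finset.sum_congr rfl fun s _ => ?_
  rw [← Finset.mul_sum, sumAn, ind_and]; ring

section key
variable {O : OS W} [Fintype W] {G P : Submodule (ZMod 2) W} {μ : ℤ}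

theorem KEY (hav : ∀ s, O.Sl s → s ∉ P) {x : W} (hx : x ∉ P) :
    ∑ k : ETC.D W, ind (An P k) * ((1 - sg (k x)) * (Mh O k + μ)) =
      NN P * (μ - cD O P x) := by
  have h0 : cD O P 0 = 0 := Finset.sum_eq_zero fun s _ => by
    rw [ind_false fun h => hav s h.1 (by simpa only [add_zero] using h.2), zero_mul]
  have i0 := INV O P 0
  have ix := INV O P x
  have s0 := sumAn P 0
  have sx := sumAn P x
  have e : ∑ k : ETC.D W, ind (An P k) * ((1 - sg (k x)) * (Mh O k + μ)) =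
      (∑ k : ETC.D W, ind (An P k) * (Mh O k * sg (k 0))) +
        μ * (∑ k : ETC.D W, ind (An P k) * sg (k 0)) -
        (∑ k : ETC.D W, ind (An P k) * (Mh O k * sg (k x))) -
        μ * ∑ k : ETC.D W, ind (An P k) * sg (k x) := by
    rw [Finset.mul_sum, Finset.mul_sum, ← Finset.sum_add_distrib, ← Finset.sum_sub_distrib,
      ← Finset.sum_sub_distrib]
    refine Finset.sum_congr rfl fun k _ => ?_
    rw [map_zero, ETC.sg_zero]; ring
  rw [e, i0, ix, s0, sx, h0, ind_true P.zero_mem, ind_false hx]; ring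

theorem KEY_nonneg (hle : ∀ k, An P k → 0 ≤ Mh O k + μ) (x : W) (k : ETC.D W) :
    0 ≤ ind (An P k) * ((1 - sg (k x)) * (Mh O k + μ)) := by
  by_cases hk : An P k
  · have h1 := hle k hk
    have h2 := ETPG.sg_le (k x)
    exact mul_nonneg (ind_nonneg _) (mul_nonneg (by linarith) h1)
  · rw [ind_false hk, zero_mul]

theorem cD_le (hle : ∀ k, An P k → 0 ≤ Mh O k + μ) (hav : ∀ s, O.Sl s → s ∉ P) {x : W}
    (hx : x ∉ P) : cD O P x ≤ μ := by
  have h1 := KEY (μ := μ) hav hx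
  have h2 : 0 ≤ ∑ k : ETC.D W, ind (An P k) * ((1 - sg (k x)) * (Mh O k + μ)) :=
    Finset.sum_nonneg fun k _ => KEY_nonneg hle x k
  rw [h1] at h2
  have h3 := NN_pos P
  by_contra hcon
  exact absurd h2 (not_le.2 (mul_neg_of_pos_of_neg h3 (by linarith)))

theorem KEY_eq (hle : ∀ k, An P k → 0 ≤ Mh O k + μ) (hav : ∀ s, O.Sl s → s ∉ P) {x : W}
    (hx : x ∉ P) (h : cD O P x = μ) {k : Module.Dual (ZMod 2) W} (hk : An P k)
    (hkx : k x = 1) : Mh O k = -μ := by
  have h1 := KEY (μ := μ) hav hx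
  rw [h, sub_self, mul_zero] at h1
  have h2 := (Finset.sum_eq_zero_iff_of_nonneg fun k _ => KEY_nonneg hle x k).1 h1 k
    (Finset.mem_univ _)
  rw [ind_true hk, one_mul, hkx, ETC.sg_one] at h2
  linarith

/-- periods -/
theorem KEY_per {x : W}
    (hall : ∀ k : Module.Dual (ZMod 2) W, An P k → k x = 1 → Mh O k = -μ) {w : W} (hw : w ∉ P)
    (hwx : w + x ∉ P) : cD O P w = cD O P (w + x) := by
  have iw := INV O P w
  have ix := INV O P (w + x)
  have sw := sumAn P w
  have sx := sumAn P (w + x)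
  have e : ∑ k : ETC.D W, ind (An P k) * ((sg (k w) - sg (k (w + x))) * (Mh O k + μ)) =
      (∑ k : ETC.D W, ind (An P k) * (Mh O k * sg (k w))) +
        μ * (∑ k : ETC.D W, ind (An P k) * sg (k w)) -
        (∑ k : ETC.D W, ind (An P k) * (Mh O k * sg (k (w + x)))) -
        μ * ∑ k : ETC.D W, ind (An P k) * sg (k (w + x)) := by
    rw [Finset.mul_sum, Finset.mul_sum, ← Finset.sum_add_distrib, ← Finset.sum_sub_distrib,
      ← Finset.sum_sub_distrib]
    exact Finset.sum_congr rfl fun k _ => by ring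
  rw [iw, ix, sw, sx, ind_false hw, ind_false hwx] at e
  have e0 : ∑ k : ETC.D W, ind (An P k) * ((sg (k w) - sg (k (w + x))) * (Mh O k + μ)) = 0 := by
    refine Finset.sum_eq_zero fun k _ => ?_
    by_cases hk : An P k
    · rcases zm (k x) with h | h
      · rw [map_add, h, add_zero, sub_self, zero_mul, mul_zero]
      · rw [hall k hk h, neg_add_cancel, mul_zero, mul_zero]
    · rw [ind_false hk, zero_mul]
  rw [e0] at e
  have h3 := NN_pos P
  have h4 : NN P * (cD O P w - cD O P (w + x)) = 0 := by rw [e]; ring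
  rcases mul_eq_zero.1 h4 with h5 | h5
  · exact absurd h5 h3.ne'
  · linarith

end key

/-! ### flat functionals -/

theorem flat {O : OS W} [Fintype W] {κ k : Module.Dual (ZMod 2) W} {μ : ℤ} (a : ZMod 2)
    (hm : ∑ s, ind (Kl O κ s) * ms O s = μ)
    (h : ∑ s, ind (Kl O κ s) * (ms O s * sg (k s)) = sg a * μ) (s : W) (hs : Kl O κ s) :
    k s = a := by
  have e : ∑ s, ind (Kl O κ s) * (ms O s * (1 - sg (a + k s))) = 0 := by
    have e1 : ∑ s, ind (Kl O κ s) * (ms O s * (1 - sg (a + k s))) =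
        (∑ s, ind (Kl O κ s) * ms O s) - sg a * ∑ s, ind (Kl O κ s) * (ms O s * sg (k s)) := by
      rw [Finset.mul_sum, ← Finset.sum_sub_distrib]
      refine Finset.sum_congr rfl fun s _ => ?_
      rw [ETC.sg_add]; ring
    rw [e1, hm, h, ← mul_assoc, ETPG.sg_sq]; ring
  have h1 := (Finset.sum_eq_zero_iff_of_nonneg fun s _ => mul_nonneg (ind_nonneg _)
    (mul_nonneg (ms_pos (O := O) s).le (by have := ETPG.sg_le (a + k s); linarith))).1 e s
    (Finset.mem_univ _)
  rw [ind_true hs, one_mul] at h1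
  rcases mul_eq_zero.1 h1 with h2 | h2
  · exact absurd h2 (ms_pos s).ne'
  · rcases zm (a + k s) with h3 | h3
    · exact (ETC.eq_of_add_eq_zero h3).symm
    · rw [h3, ETC.sg_one] at h2
      norm_num at h2

/-- `k` vanishes on `G` and has the largest mass -/
def MM (O : OS W) [Fintype W] (G : Submodule (ZMod 2) W) (μ : ℤ) (k : Module.Dual (ZMod 2) W) :
    Prop := An G k ∧ Mh O k = -μ

/-- the standing hypotheses of the cap case -/
structure Ctx (O : OS W) [Fintype W] (G : Submodule (ZMod 2) W) (μ : ℤ) : Prop where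
  geo : Geo O
  h0 : ∀ s, O.Sl s → s ∉ G
  h1 : ∀ s g, O.Sl s → g ∈ G → O.Sl (s + g)
  cap : ∀ a b, ¬ O.Sl a → ¬ O.Sl b → a ∉ G → b ∉ G → a + b ∉ G → O.Sl (a + b)
  pos : 0 < μ
  le : ∀ k, An G k → 0 ≤ Mh O k + μ

section main
variable {O : OS W} [Fintype W] {G : Submodule (ZMod 2) W} {μ : ℤ}

theorem MM.tp (c : 0 < μ) {k : Module.Dual (ZMod 2) W} (h : MM O G μ k) : Tp O k 1 := by
  obtain ⟨a, ha⟩ := exists_Tp O k
  rcases zm a with rfl | rfl
  · have h1 := mass ha
    have h2 := h.2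
    rw [Mh, h1, ETC.sg_zero, one_mul] at h2
    have h3 : 0 ≤ ∑ s, ind (Kl O k s) * ms O s :=
      Finset.sum_nonneg fun s _ => mul_nonneg (ind_nonneg _) (ms_pos s).le
    linarith
  · exact ha

theorem MM.sum (c : 0 < μ) {k : Module.Dual (ZMod 2) W} (h : MM O G μ k) :
    ∑ s, ind (Kl O k s) * ms O s = μ := by
  have h1 := mass (h.tp c)
  have h2 := h.2
  rw [Mh, h1, ETC.sg_one] at h2
  linarith

theorem MM.ex (c : 0 < μ) {k : Module.Dual (ZMod 2) W} (h : MM O G μ k) : ∃ s, Kl O k s := by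
  by_contra hcon
  push Not at hcon
  have := h.sum c
  rw [Finset.sum_eq_zero fun s _ => by rw [ind_false (hcon s), zero_mul]] at this
  exact absurd this c.ne

/-- symmetry of flat maximisers -/
theorem MM.flat (c : 0 < μ) {k κ : Module.Dual (ZMod 2) W} (h : MM O G μ k) (h' : MM O G μ κ)
    {a : ZMod 2} (ha : ∀ s, Kl O k s → κ s = a) : ∀ s, Kl O κ s → k s = a := by
  have e := X_symm (h.tp c) (h'.tp c)
  have e1 : ∑ s, ind (Kl O k s) * (ms O s * sg (κ s)) = sg a * μ := by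
    rw [← h.sum c, Finset.mul_sum]
    refine Finset.sum_congr rfl fun s _ => ?_
    by_cases hs : Kl O k s
    · rw [ha s hs]; ring
    · rw [ind_false hs]; ring
  rw [e1, ETC.sg_one] at e
  refine CapN.flat a (h'.sum c) ?_
  linarith

/-! ### one class is impossible -/

theorem Ctx.two (c : Ctx O G μ) {k : Module.Dual (ZMod 2) W} {x : W} (hk : MM O G μ k)
    (hx : Kl O k x) : ∃ y, Kl O k y ∧ x + y ∉ G := by
  by_contra hcon
  push Not at hcon
  have hxG : x ∉ G := c.h0 x hx.1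
  have e : cD O G x = μ := by
    refine le_antisymm (cD_le c.le c.h0 hxG) ?_
    rw [← hk.sum c.pos]
    refine Finset.sum_le_sum fun s _ => mul_le_mul_of_nonneg_right (ind_le fun h => ⟨h.1, ?_⟩)
      (ms_pos s).le
    rw [add_comm]
    exact hcon s h
  have hall : ∀ κ : Module.Dual (ZMod 2) W, An G κ → κ x = 1 → Mh O κ = -μ := fun κ h h' =>
    KEY_eq c.le c.h0 hxG e h h'
  obtain ⟨s, hs, h1, h2⟩ := c.geo.nu x hx.1
  have hsx : s + x ∉ G := fun h => h2 fun t ht => c.h1 t _ ht h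
  have h3 := KEY_per hall (c.h0 s hs) hsx
  have h4 : 0 < cD O G s := Finset.sum_pos' (fun t _ => mul_nonneg (ind_nonneg _) (ms_pos t).le)
    ⟨s, Finset.mem_univ _, by
      rw [ind_true ⟨hs, by rw [ZModModule.add_self]; exact G.zero_mem⟩, one_mul]
      exact ms_pos s⟩
  rw [h3] at h4
  refine absurd h4 (not_lt.2 (Finset.sum_eq_zero fun t _ => ?_).le)
  rw [ind_false, zero_mul]
  rintro ⟨h5, h6⟩
  apply h1
  have h7 := c.h1 t _ h5 h6
  rwa [show t + (t + (s + x)) = s + x from ETC.add_add_self _ _] at h7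

/-! ### edges -/

/-- `G ∪ (n + G)` -/
def Gn (G : Submodule (ZMod 2) W) (n : W) : Submodule (ZMod 2) W :=
  mkS (fun v => v ∈ G ∨ v + n ∈ G) (Or.inl G.zero_mem) fun a b h h' => by
    rcases h with h | h <;> rcases h' with h' | h'
    · exact Or.inl (G.add_mem h h')
    · refine Or.inr ?_
      have := G.add_mem h h'
      rwa [← add_assoc] at this
    · refine Or.inr ?_
      have := G.add_mem h h'
      rwa [show a + n + b = a + b + n by abel] at this
    · refine Or.inl ?_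
      have := G.add_mem h h'
      rwa [show a + n + (b + n) = a + b from eo (by
        abel_nf <;> simp only [ch2, ch3, ch4, add_zero, zero_add])] at this

theorem mem_Gn {n v : W} : v ∈ Gn G n ↔ v ∈ G ∨ v + n ∈ G := Iff.rfl

/-- sums in `G` -/
theorem gg {u v w : W} (hu : u ∈ G) (hv : v ∈ G) (e : u + v + w = 0) : w ∈ G := by
  rw [← eo e]
  exact G.add_mem hu hv

theorem Ctx.sl (c : Ctx O G μ) {s t : W} (hs : O.Sl s) (h : s + t ∈ G) : O.Sl t := by
  have := c.h1 s _ hs h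
  rwa [ETC.add_add_self] at this

/-- edge with base point `z` and direction `n` -/
structure GE (O : OS W) [Fintype W] (G : Submodule (ZMod 2) W) (μ : ℤ) (z n : W)
    (k : Module.Dual (ZMod 2) W) : Prop where
  mm : MM O G μ k
  nG : n ∉ G
  nS : ¬ O.Sl n
  iff : ∀ s, Kl O k s ↔ (s + z ∈ G ∨ s + z + n ∈ G)

theorem GE.base {z n : W} {k : Module.Dual (ZMod 2) W} (h : GE O G μ z n k) : Kl O k z :=
  (h.iff z).2 (Or.inl (by rw [ZModModule.add_self]; exact G.zero_mem))

theorem GE.other {z n : W} {k : Module.Dual (ZMod 2) W} (h : GE O G μ z n k) :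
    Kl O k (z + n) :=
  (h.iff _).2 (Or.inr (by
    rw [show z + n + z + n = 0 by
      abel_nf <;> simp only [ch2, ch3, ch4, add_zero, zero_add]]
    exact G.zero_mem))

theorem GE.rebase {z n s : W} {k : Module.Dual (ZMod 2) W} (h : GE O G μ z n k)
    (hs : Kl O k s) : GE O G μ s n k := by
  refine ⟨h.mm, h.nG, h.nS, fun t => ?_⟩
  rw [h.iff t]
  rcases (h.iff s).1 hs with h1 | h1
  · constructor
    · rintro (h2 | h2)
      · exact Or.inl (gg h1 h2 (by abel_nf <;> simp only [ch2, ch3, ch4, add_zero, zero_add]))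
      · exact Or.inr (gg h1 h2 (by abel_nf <;> simp only [ch2, ch3, ch4, add_zero, zero_add]))
    · rintro (h2 | h2)
      · exact Or.inl (gg h1 h2 (by abel_nf <;> simp only [ch2, ch3, ch4, add_zero, zero_add]))
      · exact Or.inr (gg h1 h2 (by abel_nf <;> simp only [ch2, ch3, ch4, add_zero, zero_add]))
  · constructor
    · rintro (h2 | h2)
      · exact Or.inr (gg h1 h2 (by abel_nf <;> simp only [ch2, ch3, ch4, add_zero, zero_add]))
      · exact Or.inl (gg h1 h2 (by abel_nf <;> simp only [ch2, ch3, ch4, add_zero, zero_add]))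
    · rintro (h2 | h2)
      · exact Or.inr (gg h1 h2 (by abel_nf <;> simp only [ch2, ch3, ch4, add_zero, zero_add]))
      · exact Or.inl (gg h1 h2 (by abel_nf <;> simp only [ch2, ch3, ch4, add_zero, zero_add]))

theorem Ctx.avGn (c : Ctx O G μ) {n : W} (hn : ¬ O.Sl n) : ∀ s, O.Sl s → s ∉ Gn G n := by
  rintro s hs (h | h)
  · exact c.h0 s hs h
  · exact hn (c.sl hs h)

theorem Ctx.leGn (c : Ctx O G μ) {n : W} :
    ∀ k : Module.Dual (ZMod 2) W, An (Gn G n) k → 0 ≤ Mh O k + μ := fun k hk =>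
  c.le k fun g hg => hk g (Or.inl hg)

theorem Ctx.ge (c : Ctx O G μ) {k : Module.Dual (ZMod 2) W} {x : W} (hk : MM O G μ k)
    (hx : Kl O k x) : ∃ n, GE O G μ x n k := by
  obtain ⟨y, hy, hn⟩ := c.two hk hx
  have hnS : ¬ O.Sl (x + y) := (hk.tp c.pos).clique hx hy
  have hav := c.avGn hnS
  have hxP : x ∉ Gn G (x + y) := hav x hx.1
  -- the slots of `ker k` are in `x + D`
  have hsub : ∀ s, Kl O k s → s + x ∈ Gn G (x + y) := by
    intro s hs
    by_contra hcon
    rw [mem_Gn, not_or] at hcon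
    have h1 : ¬ O.Sl (s + x) := (hk.tp c.pos).clique hs hx
    have h2 : ¬ O.Sl (s + y) := (hk.tp c.pos).clique hs hy
    have e1 : s + x + (x + y) = s + y := eo (by
      abel_nf <;> simp only [ch2, ch3, ch4, add_zero, zero_add])
    have e2 : s + x + (s + y) = x + y := eo (by
      abel_nf <;> simp only [ch2, ch3, ch4, add_zero, zero_add])
    rw [e1] at hcon
    exact hnS (e2 ▸ c.cap _ _ h1 h2 hcon.1 hcon.2 (by rw [e2]; exact hn))
  have hle : ∀ s, ind (Kl O k s) * ms O s ≤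
      ind (O.Sl s ∧ s + x ∈ Gn G (x + y)) * ms O s := fun s =>
    mul_le_mul_of_nonneg_right (ind_le fun h => ⟨h.1, hsub s h⟩) (ms_pos s).le
  have e : ∑ s, ind (Kl O k s) * ms O s =
      ∑ s, ind (O.Sl s ∧ s + x ∈ Gn G (x + y)) * ms O s := by
    refine le_antisymm (Finset.sum_le_sum fun s _ => hle s) ?_
    rw [hk.sum c.pos]
    exact cD_le c.leGn hav hxP
  refine ⟨x + y, hk, hn, hnS, fun s => ⟨hsub s, fun h => ?_⟩⟩
  have hs : O.Sl s := by
    rcases h with h | h
    · exact c.sl hx.1 (by rwa [add_comm] at h)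
    · refine c.sl hy.1 ?_
      rwa [show s + x + (x + y) = y + s from eo (by
        abel_nf <;> simp only [ch2, ch3, ch4, add_zero, zero_add])] at h
  have h1 := (Finset.sum_eq_sum_iff_of_le fun s _ => hle s).1 e s (Finset.mem_univ _)
  by_contra hcon
  rw [ind_false hcon, zero_mul, ind_true (P := O.Sl s ∧ s + x ∈ Gn G (x + y)) ⟨hs, h⟩,
    one_mul] at h1
  exact absurd h1 (ms_pos s).ne

/-- (F1) -/
theorem Ctx.F1 (c : Ctx O G μ) {z n : W} {k κ : Module.Dual (ZMod 2) W} (h : GE O G μ z n k)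
    (hκ : An G κ) (hn : κ n = 0) (hz : κ z = 1) :
    MM O G μ κ ∧ ∀ s, Kl O κ s → k s = 1 := by
  have e : cD O (Gn G n) z = μ := by
    rw [← h.mm.sum c.pos]
    refine Finset.sum_congr rfl fun s _ => ?_
    rw [ind_congr]
    exact ⟨fun h1 => (h.iff s).2 h1.2, fun h1 => ⟨h1.1, (h.iff s).1 h1⟩⟩
  have h1 : MM O G μ κ := ⟨hκ, KEY_eq c.leGn (c.avGn h.nS) (c.avGn h.nS z h.base.1) e
    (by
      rintro d (hd | hd)
      · exact hκ d hd
      · have := hκ _ hd
        rwa [map_add, hn, add_zero] at this) hz⟩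
  refine ⟨h1, h.mm.flat c.pos h1 fun s hs => ?_⟩
  rcases (h.iff s).1 hs with h2 | h2
  · have := hκ _ h2
    rw [map_add, hz] at this
    exact ETC.eq_of_add_eq_zero this
  · have := hκ _ h2
    rw [map_add, map_add, hz, hn, add_zero] at this
    exact ETC.eq_of_add_eq_zero this

/-- (F1b) -/
theorem Ctx.F1b (c : Ctx O G μ) {z n : W} {k κ : Module.Dual (ZMod 2) W}
    (h : GE O G μ z n k) (hκ : MM O G μ κ) (hn : κ n = 0) (hz : κ z = 0) :
    ∀ s, Kl O κ s → k s = 0 := by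
  refine h.mm.flat c.pos hκ fun s hs => ?_
  rcases (h.iff s).1 hs with h2 | h2
  · have := hκ.1 _ h2
    rwa [map_add, hz, add_zero] at this
  · have := hκ.1 _ h2
    rwa [map_add, map_add, hz, hn, add_zero, add_zero] at this

/-- one step of (OMEGA) -/
theorem Ctx.step (c : Ctx O G μ) {y z : W} {k : Module.Dual (ZMod 2) W} (hk : MM O G μ k)
    (hy : Kl O k y) (hz : O.C y z) : ∃ κ, MM O G μ κ ∧ Kl O κ z := by
  obtain ⟨n, h⟩ := c.ge hk hy
  let Q : Submodule (ZMod 2) W := mkS (fun v => ∃ d, d ∈ Gn G n ∧ O.Z z (v + d))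
    ⟨0, Submodule.zero_mem _, by rw [add_zero]; exact O.z0 z⟩ (by
      rintro a b ⟨d, h1, h2⟩ ⟨e, h3, h4⟩
      refine ⟨d + e, Submodule.add_mem _ h1 h3, ?_⟩
      have := O.za h2 h4
      rwa [show a + d + (b + e) = a + b + (d + e) by abel] at this)
  have hyQ : y ∉ Q := by
    rintro ⟨d, h1, h2⟩
    have h3 : Kl O k (y + d) := (h.iff _).2 (by
      rcases h1 with h1 | h1
      · refine Or.inl ?_
        rwa [show y + d + y = d from eo (by
          abel_nf <;> simp only [ch2, ch3, ch4, add_zero, zero_add])]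
      · refine Or.inr ?_
        rwa [show y + d + y + n = d + n from eo (by
          abel_nf <;> simp only [ch2, ch3, ch4, add_zero, zero_add])])
    have h4 := h3.2 z (O.zs h2)
    rw [hk.tp c.pos y z hy hz] at h4
    exact one_ne_zero h4
  obtain ⟨κ, h1, h2⟩ := ETC.exists_dual_sep hyQ
  have h3 : An G κ := fun g hg => h2 g ⟨g, Or.inl hg, by
    rw [ZModModule.add_self]; exact O.z0 z⟩
  have h4 : κ n = 0 := h2 n ⟨n, Or.inr (by rw [ZModModule.add_self]; exact G.zero_mem), by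
    rw [ZModModule.add_self]; exact O.z0 z⟩
  refine ⟨κ, (c.F1 h h3 h4 h1).1, Sl.right hz, fun v hv => h2 v ⟨0, Submodule.zero_mem _, ?_⟩⟩
  rwa [add_zero]

/-- (OMEGA) -/
theorem Ctx.om (c : Ctx O G μ) {k : Module.Dual (ZMod 2) W} (hk : MM O G μ k) {z : W}
    (hz : O.Sl z) : ∃ n κ, GE O G μ z n κ := by
  obtain ⟨y, hy⟩ := hk.ex c.pos
  obtain ⟨r, h1, h2⟩ := common hy.1 hz
  obtain ⟨κ, h3, h4⟩ := c.step hk hy h1
  obtain ⟨κ', h5, h6⟩ := c.step h3 h4 (O.cs h2)
  obtain ⟨n, h7⟩ := c.ge h5 h6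
  exact ⟨n, κ', h7⟩

theorem GE.dir {z n z' n' : W} {k : Module.Dual (ZMod 2) W} (h : GE O G μ z n k)
    (h' : GE O G μ z' n' k) : n + n' ∈ G := by
  rcases (h.iff z').1 h'.base with h1 | h1 <;> rcases (h.iff _).1 h'.other with h2 | h2
  · exact absurd (gg h1 h2 (by abel_nf <;> simp only [ch2, ch3, ch4, add_zero, zero_add])) h'.nG
  · exact gg h1 h2 (by abel_nf <;> simp only [ch2, ch3, ch4, add_zero, zero_add])
  · exact gg h1 h2 (by abel_nf <;> simp only [ch2, ch3, ch4, add_zero, zero_add])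
  · exact absurd (gg h1 h2 (by abel_nf <;> simp only [ch2, ch3, ch4, add_zero, zero_add])) h'.nG

/-- the separating functional for two disjoint edges -/
theorem Ctx.sep (c : Ctx O G μ) {x₁ n₁ x₂ n₂ : W} {k₁ k₂ : Module.Dual (ZMod 2) W}
    (h₁ : GE O G μ x₁ n₁ k₁) (h₂ : GE O G μ x₂ n₂ k₂) (hd : ∀ s, Kl O k₁ s → ¬ Kl O k₂ s) :
    ∃ l : Module.Dual (ZMod 2) W, An G l ∧ l x₁ = 0 ∧ l n₁ = 0 ∧ l n₂ = 0 ∧ l x₂ = 1 := by
  have hx : x₂ ∉ Gn (Gn (Gn G n₁) n₂) x₁ := by
    have hb := h₂.base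
    have ho := h₂.other
    rintro (((h | h) | (h | h)) | ((h | h) | (h | h)))
    · exact c.h0 _ hb.1 h
    · exact h₁.nS (c.sl hb.1 h)
    · exact h₂.nS (c.sl hb.1 h)
    · exact h₁.nS (c.sl ho.1 h)
    · exact hd x₂ ((h₁.iff _).2 (Or.inl h)) hb
    · exact hd x₂ ((h₁.iff _).2 (Or.inr h)) hb
    · refine hd (x₂ + n₂) ((h₁.iff _).2 (Or.inl ?_)) ho
      rwa [show x₂ + n₂ + x₁ = x₂ + x₁ + n₂ by abel]
    · refine hd (x₂ + n₂) ((h₁.iff _).2 (Or.inr ?_)) ho
      rwa [show x₂ + n₂ + x₁ + n₁ = x₂ + x₁ + n₂ + n₁ by abel]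
  obtain ⟨l, h1, h2⟩ := ETC.exists_dual_sep hx
  refine ⟨l, fun g hg => h2 g (Or.inl (Or.inl (Or.inl hg))), h2 x₁ (Or.inr (Or.inl (Or.inl ?_))),
    h2 n₁ (Or.inl (Or.inl (Or.inr ?_))), h2 n₂ (Or.inl (Or.inr (Or.inl ?_))), h1⟩ <;>
  · rw [ZModModule.add_self]; exact G.zero_mem

/-- (F5) -/
theorem Ctx.val (c : Ctx O G μ) {x₁ n₁ x₂ n₂ : W} {k₁ k₂ l : Module.Dual (ZMod 2) W}
    (h₁ : GE O G μ x₁ n₁ k₁) (h₂ : GE O G μ x₂ n₂ k₂) (hl : An G l) (hx₁ : l x₁ = 0)
    (hn₁ : l n₁ = 0) (hn₂ : l n₂ = 0) (hx₂ : l x₂ = 1) :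
    MM O G μ (k₁ + k₂) ∧ ∀ s, Kl O (k₁ + k₂) s → l s = 1 := by
  obtain ⟨h3, h4⟩ := c.F1 h₂ hl hn₂ hx₂
  have h5 := c.F1b h₁ h3 hn₁ hx₁
  have h6 : ∀ s, Kl O l s → (k₁ + k₂) s = 1 := fun s hs => by
    rw [LinearMap.add_apply, h4 s hs, h5 s hs, zero_add]
  obtain ⟨z, hz⟩ := h3.ex c.pos
  obtain ⟨m, h7⟩ := c.ge h3 hz
  refine c.F1 h7 (h₁.mm.1.add h₂.mm.1) ?_ (h6 z hz)
  have h8 := h6 _ h7.other
  rw [map_add, h6 z hz] at h8
  rcases zm ((k₁ + k₂) m) with h9 | h9
  · exact h9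
  · rw [h9, ZModModule.add_self] at h8
    exact absurd h8.symm one_ne_zero

theorem Ctx.dir (c : Ctx O G μ) {x₁ n₁ x₂ n₂ : W} {k₁ k₂ : Module.Dual (ZMod 2) W}
    (h₁ : GE O G μ x₁ n₁ k₁) (h₂ : GE O G μ x₂ n₂ k₂) (hd : ∀ s, Kl O k₁ s → ¬ Kl O k₂ s) :
    ∃ x₃ n₃, GE O G μ x₃ n₃ (k₁ + k₂) ∧ (n₃ + n₁ ∈ G ∨ n₃ + n₂ ∈ G) := by
  obtain ⟨l, l0, l1, l2, l3, l4⟩ := c.sep h₁ h₂ hd
  have hM := (c.val h₁ h₂ l0 l1 l2 l3 l4).1
  obtain ⟨x₃, hx₃⟩ := hM.ex c.pos
  obtain ⟨n₃, h₃⟩ := c.ge hM hx₃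
  -- the functionals of both kinds vanish on the direction
  have key : ∀ m : Module.Dual (ZMod 2) W, (∀ s, Kl O (k₁ + k₂) s → m s = 1) → m n₃ = 0 := by
    intro m hm
    have h8 := hm _ h₃.other
    rw [map_add, hm _ h₃.base] at h8
    rcases zm (m n₃) with h9 | h9
    · exact h9
    · rw [h9, ZModModule.add_self] at h8
      exact absurd h8.symm one_ne_zero
  have kA : ∀ m : Module.Dual (ZMod 2) W, An G m → m x₁ = 0 → m n₁ = 0 → m n₂ = 0 → m x₂ = 1 →
      m n₃ = 0 := fun m a0 a1 a2 a3 a4 => key m (c.val h₁ h₂ a0 a1 a2 a3 a4).2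
  have kB : ∀ m : Module.Dual (ZMod 2) W, An G m → m x₂ = 0 → m n₁ = 0 → m n₂ = 0 → m x₁ = 1 →
      m n₃ = 0 := fun m a0 a1 a2 a3 a4 => key m (by
        have := (c.val h₂ h₁ a0 a1 a3 a2 a4).2
        rwa [add_comm k₂ k₁] at this)
  have hl := kA l l0 l1 l2 l3 l4
  have hn : n₃ ∈ Gn (Gn G n₁) n₂ := by
    by_contra hcon
    obtain ⟨f, f1, f2⟩ := ETC.exists_dual_sep hcon
    have f0 : An G f := fun g hg => f2 g (Or.inl (Or.inl hg))
    have fn₁ : f n₁ = 0 := f2 n₁ (Or.inl (Or.inr (by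
      rw [ZModModule.add_self]; exact G.zero_mem)))
    have fn₂ : f n₂ = 0 := f2 n₂ (Or.inr (Or.inl (by
      rw [ZModModule.add_self]; exact G.zero_mem)))
    have g1 : (f + l) n₃ = 1 := by rw [LinearMap.add_apply, f1, hl, add_zero]
    have gn₁ : (f + l) n₁ = 0 := by rw [LinearMap.add_apply, fn₁, l2, add_zero]
    have gn₂ : (f + l) n₂ = 0 := by rw [LinearMap.add_apply, fn₂, l3, add_zero]
    rcases zm (f x₁) with h5 | h5 <;> rcases zm (f x₂) with h6 | h6
    · have := kA (f + l) (f0.add l0) (by rw [LinearMap.add_apply, h5, l1, add_zero]) gn₁ gn₂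
        (by rw [LinearMap.add_apply, h6, l4, zero_add])
      rw [g1] at this
      exact one_ne_zero this
    · have := kA f f0 h5 fn₁ fn₂ h6
      rw [f1] at this
      exact one_ne_zero this
    · have := kB f f0 h6 fn₁ fn₂ h5
      rw [f1] at this
      exact one_ne_zero this
    · have := kB (f + l) (f0.add l0) (by
        rw [LinearMap.add_apply, h6, l4, ZModModule.add_self]) gn₁ gn₂
        (by rw [LinearMap.add_apply, h5, l1, add_zero])
      rw [g1] at this
      exact one_ne_zero this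
  refine ⟨x₃, n₃, h₃, ?_⟩
  rcases hn with (h | h) | (h | h)
  · exact absurd h h₃.nG
  · exact Or.inl h
  · exact Or.inr h
  · exfalso
    have e : n₃ + n₂ + n₁ = n₁ + n₂ + n₃ := by abel
    rw [e] at h
    by_cases hG : n₁ + n₂ ∈ G
    · exact h₃.nG (gg hG h (by abel_nf <;> simp only [ch2, ch3, ch4, add_zero, zero_add]))
    · exact h₃.nS (c.sl (c.cap _ _ h₁.nS h₂.nS h₁.nG h₂.nG hG) h)

/-- edges of different directions meet -/
theorem Ctx.meet' (c : Ctx O G μ) {x₁ n₁ x₂ n₂ x₃ n₃ : W} {k₁ k₂ : Module.Dual (ZMod 2) W}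
    (h₁ : GE O G μ x₁ n₁ k₁) (h₂ : GE O G μ x₂ n₂ k₂) (h₃ : GE O G μ x₃ n₃ (k₁ + k₂))
    (h : n₃ + n₁ ∈ G) : n₁ + n₂ ∈ G := by
  have hd : ∀ s, Kl O k₁ s → ¬ Kl O (k₁ + k₂) s := by
    intro s hs hs'
    obtain ⟨r, hr⟩ := hs.1
    have h4 : Kl O k₂ s := ⟨hs.1, fun v hv => by
      have := hs'.2 v hv
      rwa [LinearMap.add_apply, hs.2 v hv, zero_add] at this⟩
    have h5 := h₃.mm.tp c.pos s r hs' hr
    rw [LinearMap.add_apply, h₁.mm.tp c.pos s r hs hr, h₂.mm.tp c.pos s r h4 hr,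
      ZModModule.add_self] at h5
    exact zero_ne_one h5
  obtain ⟨x₄, n₄, h₄, h5⟩ := c.dir h₁ h₃ hd
  rw [show k₁ + (k₁ + k₂) = k₂ from ETC.add_add_self (V := ETC.D W) k₁ k₂] at h₄
  have h6 := h₄.dir h₂
  rcases h5 with h5 | h5
  · exact gg h6 h5 (by abel_nf <;> simp only [ch2, ch3, ch4, add_zero, zero_add])
  · have h7 := gg h6 h5 (w := n₂ + n₃) (by
      abel_nf <;> simp only [ch2, ch3, ch4, add_zero, zero_add])
    exact gg h7 h (by abel_nf <;> simp only [ch2, ch3, ch4, add_zero, zero_add])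

theorem Ctx.meet (c : Ctx O G μ) {x₁ n₁ x₂ n₂ : W} {k₁ k₂ : Module.Dual (ZMod 2) W}
    (h₁ : GE O G μ x₁ n₁ k₁) (h₂ : GE O G μ x₂ n₂ k₂) (hn : n₁ + n₂ ∉ G) :
    ∃ s, Kl O k₁ s ∧ Kl O k₂ s := by
  by_contra hcon
  push Not at hcon
  obtain ⟨x₃, n₃, h₃, h⟩ := c.dir h₁ h₂ hcon
  rcases h with h | h
  · exact hn (c.meet' h₁ h₂ h₃ h)
  · rw [add_comm k₁ k₂] at h₃
    have := c.meet' h₂ h₁ h₃ h
    rw [add_comm] at this
    exact hn this

/-- two edges of different directions at one slot are impossible -/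
theorem Ctx.star (c : Ctx O G μ) {a n₁ n₂ : W} {k₁ k₂ : Module.Dual (ZMod 2) W}
    (h₁ : GE O G μ a n₁ k₁) (h₂ : GE O G μ a n₂ k₂) (hn : n₁ + n₂ ∉ G) : False := by
  -- where the slots are
  have key : ∀ z, O.Sl z → z + a ∈ G ∨ (∃ n k, GE O G μ a n k ∧ z + a + n ∈ G) ∨
      z + a + (n₁ + n₂) ∈ G := by
    intro z hz
    obtain ⟨n, κ, h⟩ := c.om h₁.mm hz
    -- `z` or `z + n` is `a`
    have hA : ∀ s, Kl O κ s → s + a ∈ G → z + a ∈ G ∨ ∃ n k, GE O G μ a n k ∧ z + a + n ∈ G := by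
      intro s hs hsa
      rcases (h.iff s).1 hs with h5 | h5
      · exact Or.inl (gg h5 hsa (by
          abel_nf <;> simp only [ch2, ch3, ch4, add_zero, zero_add]))
      · refine Or.inr ⟨n, κ, ?_, gg h5 hsa (by
          abel_nf <;> simp only [ch2, ch3, ch4, add_zero, zero_add])⟩
        refine h.rebase ((h.iff a).2 (Or.inr (gg h5 hsa (by
          abel_nf <;> simp only [ch2, ch3, ch4, add_zero, zero_add]))))
    -- `z` or `z + n` is `a + m`, where `m` is a direction
    have hB : ∀ m k, GE O G μ a m k → ∀ s, Kl O κ s → s + a + m ∈ G →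
        (∃ n k, GE O G μ a n k ∧ z + a + n ∈ G) ∨ z + a + (n + m) ∈ G := by
      intro m k hm s hs hsa
      rcases (h.iff s).1 hs with h5 | h5
      · exact Or.inl ⟨m, k, hm, gg h5 hsa (by
          abel_nf <;> simp only [ch2, ch3, ch4, add_zero, zero_add])⟩
      · exact Or.inr (gg h5 hsa (by
          abel_nf <;> simp only [ch2, ch3, ch4, add_zero, zero_add]))
    -- meeting an edge
    have hC : ∀ m k, GE O G μ a m k → n + m ∉ G → (z + a ∈ G ∨
        ∃ n k, GE O G μ a n k ∧ z + a + n ∈ G) ∨ z + a + (n + m) ∈ G := by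
      intro m k hm hnm
      obtain ⟨s, h5, h6⟩ := c.meet h hm hnm
      rcases (hm.iff s).1 h6 with h7 | h7
      · exact Or.inl (hA s h5 h7)
      · rcases hB m k hm s h5 h7 with h8 | h8
        · exact Or.inl (Or.inr h8)
        · exact Or.inr h8
    by_cases g1 : n + n₁ ∈ G
    · -- `n` is the direction `n₁`
      have g2 : n + n₂ ∉ G := fun g2 => hn (gg g1 g2 (by
        abel_nf <;> simp only [ch2, ch3, ch4, add_zero, zero_add]))
      rcases hC n₂ k₂ h₂ g2 with (h5 | h5) | h5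
      · exact Or.inl h5
      · exact Or.inr (Or.inl h5)
      · exact Or.inr (Or.inr (gg g1 h5 (by
          abel_nf <;> simp only [ch2, ch3, ch4, add_zero, zero_add])))
    · by_cases g2 : n + n₂ ∈ G
      · rcases hC n₁ k₁ h₁ g1 with (h5 | h5) | h5
        · exact Or.inl h5
        · exact Or.inr (Or.inl h5)
        · exact Or.inr (Or.inr (gg g2 h5 (by
            abel_nf <;> simp only [ch2, ch3, ch4, add_zero, zero_add])))
      · obtain ⟨s, h5, h6⟩ := c.meet h h₁ g1
        obtain ⟨t, h7, h8⟩ := c.meet h h₂ g2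
        rcases (h₁.iff s).1 h6 with h9 | h9
        · rcases hA s h5 h9 with h | h
          · exact Or.inl h
          · exact Or.inr (Or.inl h)
        · rcases (h₂.iff t).1 h8 with h10 | h10
          · rcases hA t h7 h10 with h | h
            · exact Or.inl h
            · exact Or.inr (Or.inl h)
          · rcases (h.iff s).1 h5 with h11 | h11
            · exact Or.inr (Or.inl ⟨n₁, k₁, h₁, gg h11 h9 (by
                abel_nf <;> simp only [ch2, ch3, ch4, add_zero, zero_add])⟩)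
            · rcases (h.iff t).1 h7 with h12 | h12
              · exact Or.inr (Or.inl ⟨n₂, k₂, h₂, gg h12 h10 (by
                  abel_nf <;> simp only [ch2, ch3, ch4, add_zero, zero_add])⟩)
              · -- `z + n` is `a + n₁` and `a + n₂`
                exfalso
                have h13 := gg h11 h12 (w := s + t) (by
                  abel_nf <;> simp only [ch2, ch3, ch4, add_zero, zero_add])
                have h14 := gg h9 h10 (w := s + t + (n₁ + n₂)) (by
                  abel_nf <;> simp only [ch2, ch3, ch4, add_zero, zero_add])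
                exact hn (gg h13 h14 (by
                  abel_nf <;> simp only [ch2, ch3, ch4, add_zero, zero_add]))
  -- `n₁ + n₂` is a slot
  have hs := c.cap _ _ h₁.nS h₂.nS h₁.nG h₂.nG hn
  have hbad : ¬ O.Sl (a + (n₁ + n₂)) := by
    rcases key _ hs with h | ⟨n, k, h3, h⟩ | h
    · intro _
      exact h₂.nS (c.sl h₁.other.1 (gg h G.zero_mem (by
        abel_nf <;> simp only [ch2, ch3, ch4, add_zero, zero_add])))
    · intro h4
      exact h3.nS (c.sl h4 (gg h G.zero_mem (by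
        abel_nf <;> simp only [ch2, ch3, ch4, add_zero, zero_add])))
    · exact absurd (gg h G.zero_mem (by
        abel_nf <;> simp only [ch2, ch3, ch4, add_zero, zero_add])) (c.h0 a h₁.base.1)
  have key' : ∀ z, O.Sl z → z + a ∈ G ∨ ∃ n k, GE O G μ a n k ∧ z + a + n ∈ G := by
    intro z hz
    rcases key z hz with h | h | h
    · exact Or.inl h
    · exact Or.inr h
    · exact absurd (c.sl hz (by rwa [add_assoc] at h)) hbad
  -- a slot commuting with `n₁`
  obtain ⟨s, h3, h4⟩ := cm_span ⟨a, h₁.base.1⟩ (c.geo.sp n₁)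
  have hN : ∀ r, O.C s r → r + a ∈ G ∨ r + a + n₁ ∈ G := by
    intro r hr
    have hr' : O.Sl (r + n₁) := Sl.right (O.cz hr h4)
    rcases key' r (Sl.right hr) with h5 | ⟨m, k, h5, h6⟩
    · exact Or.inl h5
    · rcases key' _ hr' with h7 | ⟨m', k', h7, h8⟩
      · right
        exact gg h7 G.zero_mem (by
          abel_nf <;> simp only [ch2, ch3, ch4, add_zero, zero_add])
      · exfalso
        have h9 := gg h6 h8 (w := n₁ + m + m') (by
          abel_nf <;> simp only [ch2, ch3, ch4, add_zero, zero_add])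
        by_cases hG : n₁ + m ∈ G
        · exact h7.nG (gg hG h9 (by
            abel_nf <;> simp only [ch2, ch3, ch4, add_zero, zero_add]))
        · exact h7.nS (c.sl (c.cap _ _ h₁.nS h5.nS h₁.nG h5.nG hG) h9)
  obtain ⟨r, hr⟩ := h3
  have hr2 : O.C s (r + s) := O.cz hr (O.zz s)
  have hsl : O.Sl s := ⟨r, hr⟩
  rcases hN r hr with h5 | h5 <;> rcases hN _ hr2 with h6 | h6
  · exact c.h0 s hsl (gg h5 h6 (by
      abel_nf <;> simp only [ch2, ch3, ch4, add_zero, zero_add]))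
  · exact h₁.nS (c.sl hsl (gg h5 h6 (by
      abel_nf <;> simp only [ch2, ch3, ch4, add_zero, zero_add])))
  · exact h₁.nS (c.sl hsl (gg h5 h6 (by
      abel_nf <;> simp only [ch2, ch3, ch4, add_zero, zero_add])))
  · exact c.h0 s hsl (gg h5 h6 (by
      abel_nf <;> simp only [ch2, ch3, ch4, add_zero, zero_add]))

theorem Ctx.false (c : Ctx O G μ) {k : Module.Dual (ZMod 2) W} (hk : MM O G μ k) : False := by
  obtain ⟨x, hx⟩ := hk.ex c.pos
  obtain ⟨n, h⟩ := c.ge hk hx
  -- all directions agree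
  have hst : ∀ z, O.Sl z → O.Sl (z + n) := by
    intro z hz
    obtain ⟨m, κ, h1⟩ := c.om hk hz
    have hmn : m + n ∈ G := by
      by_contra hcon
      obtain ⟨s, h2, h3⟩ := c.meet h1 h hcon
      exact c.star (h1.rebase h2) (h.rebase h3) hcon
    exact c.sl h1.other.1 (gg hmn G.zero_mem (by
      abel_nf <;> simp only [ch2, ch3, ch4, add_zero, zero_add]))
  obtain ⟨l, h1, h2⟩ := ETC.exists_dual_sep (c.avGn h.nS x hx.1)
  obtain ⟨v, h3, h4⟩ := c.geo.nhp l (by
    rintro rfl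
    exact zero_ne_one h1)
  have hln : l n = 0 := h2 n (Or.inr (by rw [ZModModule.add_self]; exact G.zero_mem))
  have hvG : v ∉ G := fun hv => by
    rw [h2 v (Or.inl hv)] at h3
    exact zero_ne_one h3
  have hvn : v + n ∉ G := fun hv => by
    have := h2 _ (Or.inl hv)
    rw [map_add, h3, hln, add_zero] at this
    exact one_ne_zero this
  have h5 := hst _ (c.cap _ _ h4 h.nS hvG h.nG hvn)
  rw [ETC.add_add_self'] at h5
  exact h4 h5

end main

end Pool.Agent.ETPQ.CapN

namespace Pool.Agent.ETPQ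

open Pool.Agent.ETPF (OS)
open ETC (ind ind_true ind_false ind_nonneg sg)
open CapN

/-- **the cap case**: a one-symbol geometry has no subgroup `G` of periods of the set of slots,
containing no slot, such that modulo `G` the nonzero non-slots form a cap -/
theorem Geo.cap {W : Type} [AddCommGroup W] [Module (ZMod 2) W] [Finite W] {O : OS W} (X : Geo O) (hne : ∃ s, O.Sl s)
    {G : Submodule (ZMod 2) W} (h0 : ∀ s, O.Sl s → s ∉ G)
    (h1 : ∀ s g, O.Sl s → g ∈ G → O.Sl (s + g))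
    (cap : ∀ a b, ¬ O.Sl a → ¬ O.Sl b → a ∉ G → b ∉ G → a + b ∉ G → O.Sl (a + b)) : False := by
  have := Fintype.ofFinite W
  classical
  -- the maximisers
  obtain ⟨k, hk, hmin⟩ := Finset.exists_min_image
    (Finset.univ.filter fun k : ETC.D W => An G k) (fun k => Mh O k)
    ⟨0, Finset.mem_filter.2 ⟨Finset.mem_univ _, fun _ _ => rfl⟩⟩
  have hkG : An G k := (Finset.mem_filter.1 hk).2
  have hle : ∀ κ : Module.Dual (ZMod 2) W, An G κ → Mh O k ≤ Mh O κ := fun κ h =>
    hmin κ (Finset.mem_filter.2 ⟨Finset.mem_univ _, h⟩)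
  have hneg : Mh O k < 0 := by
    by_contra hcon
    push Not at hcon
    have e := INV O G 0
    have e0 : cD O G 0 = 0 := Finset.sum_eq_zero fun s _ => by
      rw [ind_false fun h => h0 s h.1 (by simpa only [add_zero] using h.2), zero_mul]
    rw [e0, mul_zero] at e
    have hnn : ∀ κ : ETC.D W, 0 ≤ ind (An G κ) * (Mh O κ * sg (κ 0)) := fun κ => by
      by_cases h : An G κ
      · rw [map_zero, ETC.sg_zero, mul_one]
        exact mul_nonneg (ind_nonneg _) (hcon.trans (hle κ h))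
      · rw [ind_false h, zero_mul]
    have e1 := (Finset.sum_eq_zero_iff_of_nonneg fun κ _ => hnn κ).1 e 0 (Finset.mem_univ _)
    rw [ind_true (show An G (0 : Module.Dual (ZMod 2) W) from fun _ _ => rfl), map_zero,
      ETC.sg_zero, mul_one, one_mul] at e1
    obtain ⟨s, hs⟩ := hne
    have e2 : 0 < Mh O 0 := by
      refine Finset.sum_pos' (fun t _ => ?_) ⟨s, Finset.mem_univ _, ?_⟩
      · rw [LinearMap.zero_apply, ETC.sg_zero, mul_one]
        exact mul_nonneg (ind_nonneg _) (ms_pos t).le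
      · rw [LinearMap.zero_apply, ETC.sg_zero, mul_one, ind_true hs, one_mul]
        exact ms_pos s
    exact absurd e1 e2.ne'
  have c : Ctx O G (-Mh O k) := ⟨X, h0, h1, cap, by linarith, fun κ h => by
    have := hle κ h
    linarith⟩
  exact c.false (k := k) ⟨hkG, by ring⟩

end Pool.Agent.ETPQ
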