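import Pool.Agent.ETPQ.Base

/-!
Unions of three subspaces, subspaces of index two (for note 2842, helper88, section 1).
-/

set_option autoImplicit false
set_option linter.unusedSimpArgs false
set_option linter.unnecessarySeqFocus false
set_option linter.unusedSectionVars false

namespace Pool.Agent.ETPQ

open Pool.Agent.ETCP (ch2 ch3 ch4 eo)
open Pool.Agent.ETPG (mkS)
open ETC (zm)

variable {W : Type} [AddCommGroup W] [Module (ZMod 2) W]

theorem tt (x : W) : x + x = 0 := ZModModule.add_self x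

theorem xy (x y : W) : x + y + y = x := by rw [add_assoc, tt, add_zero]

theorem xx (x y : W) : x + (x + y) = y := by rw [← add_assoc, tt, zero_add]

/-- `A + ⟨v⟩` -/
def ad (A : Submodule (ZMod 2) W) (v : W) : Submodule (ZMod 2) W :=
  mkS (fun x => x ∈ A ∨ x + v ∈ A) (Or.inl A.zero_mem) (by
    rintro a b (h | h) (h' | h')
    · exact Or.inl (A.add_mem h h')
    · right
      have := A.add_mem h h'
      rwa [show a + (b + v) = a + b + v from by abel] at this
    · right
      have := A.add_mem h h'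
      rwa [show a + v + b = a + b + v from by abel] at this
    · left
      have := A.add_mem h h'
      rwa [show a + v + (b + v) = a + b from eo (by
        abel_nf <;> simp only [ch2, ch3, ch4, add_zero, zero_add])] at this)

theorem mem_ad {A : Submodule (ZMod 2) W} {v x : W} : x ∈ ad A v ↔ x ∈ A ∨ x + v ∈ A := Iff.rfl

theorem le_ad {A : Submodule (ZMod 2) W} {v : W} : A ≤ ad A v := fun _ h => Or.inl h

theorem self_ad {A : Submodule (ZMod 2) W} {v : W} : v ∈ ad A v := Or.inr (by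
  rw [tt]; exact A.zero_mem)

theorem card_ad [Finite W] {A : Submodule (ZMod 2) W} {v : W} (h : v ∉ A) :
    Nat.card (ad A v) = 2 * Nat.card A := by
  let f : A ⊕ A → ad A v := fun s => match s with
    | Sum.inl a => ⟨a.1, Or.inl a.2⟩
    | Sum.inr a => ⟨a.1 + v, Or.inr (by rw [xy]; exact a.2)⟩
  have hf : Function.Bijective f := by
    constructor
    · rintro (a | a) (b | b) hab
      · have := congrArg Subtype.val hab
        simp only [f] at this
        rw [Subtype.ext this]
      · exfalso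
        have e : (a : W) = b + v := congrArg Subtype.val hab
        apply h
        have := A.add_mem b.2 a.2
        rwa [e, xx] at this
      · exfalso
        have e : (a : W) + v = b := congrArg Subtype.val hab
        apply h
        have := A.add_mem a.2 b.2
        rwa [← e, xx] at this
      · have e : (a : W) + v = b + v := congrArg Subtype.val hab
        rw [Subtype.ext (add_right_cancel e)]
    · rintro ⟨x, hx | hx⟩
      · exact ⟨Sum.inl ⟨x, hx⟩, rfl⟩
      · exact ⟨Sum.inr ⟨x + v, hx⟩, Subtype.ext (xy x v)⟩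
  rw [← Nat.card_eq_of_bijective f hf, Nat.card_sum]
  ring

theorem card_pos [Finite W] (A : Submodule (ZMod 2) W) : 0 < Nat.card A := Nat.card_pos

/-- two subspaces of the same size, one in the other -/
theorem eq_of_le_card [Finite W] {A B : Submodule (ZMod 2) W} (h : A ≤ B)
    (hc : Nat.card B ≤ Nat.card A) : A = B := by
  apply SetLike.coe_injective
  refine Set.eq_of_subset_of_ncard_le h ?_ (Set.toFinite _)
  rwa [← Nat.card_coe_set_eq, ← Nat.card_coe_set_eq]

/-! ### subspaces of index two -/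

/-- `A` has index two in `Y` -/
structure Ix (A Y : Submodule (ZMod 2) W) : Prop where
  le : A ≤ Y
  ex : ∃ y ∈ Y, y ∉ A
  ix : ∀ x ∈ Y, x ∉ A → ∀ y ∈ Y, y ∉ A → x + y ∈ A

/-- `f` has kernel `A` on `Y` -/
def Fk (f : Module.Dual (ZMod 2) W) (A Y : Submodule (ZMod 2) W) : Prop :=
  ∀ y ∈ Y, (f y = 0 ↔ y ∈ A)

namespace Ix

variable {A Y : Submodule (ZMod 2) W}

theorem eq_ad (h : Ix A Y) {y : W} (hy : y ∈ Y) (hyA : y ∉ A) : Y = ad A y := by
  apply le_antisymm
  · intro x hx
    by_cases hxA : x ∈ A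
    · exact Or.inl hxA
    · exact Or.inr (h.ix x hx hxA y hy hyA)
  · rintro x (hx | hx)
    · exact h.le hx
    · have := Y.add_mem (h.le hx) hy
      rwa [xy] at this

theorem card [Finite W] (h : Ix A Y) : Nat.card Y = 2 * Nat.card A := by
  obtain ⟨y, hy, hyA⟩ := h.ex
  rw [h.eq_ad hy hyA, card_ad hyA]

theorem eq_or [Finite W] (h : Ix A Y) {B : Submodule (ZMod 2) W} (h1 : A ≤ B) (h2 : B ≤ Y) :
    B = A ∨ B = Y := by
  by_cases h3 : ∀ b ∈ B, b ∈ A
  · exact Or.inl (le_antisymm h3 h1)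
  · right
    push Not at h3
    obtain ⟨b, hb, hbA⟩ := h3
    refine le_antisymm h2 fun y hy => ?_
    by_cases hyA : y ∈ A
    · exact h1 hyA
    · have := B.add_mem (h1 (h.ix y hy hyA b (h2 hb) hbA)) hb
      rwa [xy] at this

/-- the functional with kernel `A` on `Y` -/
theorem fn (h : Ix A Y) : ∃ f : Module.Dual (ZMod 2) W, Fk f A Y := by
  obtain ⟨y0, hy, hyA⟩ := h.ex
  obtain ⟨f, f1, f2⟩ := ETC.exists_dual_sep hyA
  refine ⟨f, fun y hyY => ⟨fun h0 => ?_, fun h0 => f2 y h0⟩⟩
  by_contra hcon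
  have := f2 _ (h.ix y hyY hcon y0 hy hyA)
  rw [map_add, h0, f1, zero_add] at this
  exact one_ne_zero this

end Ix

theorem Fk.one {f : Module.Dual (ZMod 2) W} {A Y : Submodule (ZMod 2) W} (h : Fk f A Y) {y : W}
    (hy : y ∈ Y) (hyA : y ∉ A) : f y = 1 := (zm _).resolve_left fun h0 => hyA ((h y hy).1 h0)

theorem Fk.ix {f : Module.Dual (ZMod 2) W} {A Y : Submodule (ZMod 2) W} (h : Fk f A Y)
    (le : A ≤ Y) {y0 : W} (hy0 : y0 ∈ Y) (h1 : f y0 = 1) : Ix A Y where
  le := le
  ex := ⟨y0, hy0, fun h2 => by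
    rw [(h y0 hy0).2 h2] at h1
    exact zero_ne_one h1⟩
  ix := fun x hx hxA y hy hyA => (h _ (Y.add_mem hx hy)).1 (by
    rw [map_add, h.one hx hxA, h.one hy hyA]; decide)

theorem Fk.eqOn {f g : Module.Dual (ZMod 2) W} {A Y : Submodule (ZMod 2) W} (h : Fk f A Y)
    (h' : Fk g A Y) {y : W} (hy : y ∈ Y) : f y = g y := by
  by_cases h1 : y ∈ A
  · rw [(h y hy).2 h1, (h' y hy).2 h1]
  · rw [h.one hy h1, h'.one hy h1]

/-! ### the union of three subspaces -/

/-- the union of three subspaces contains all sums -/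
def U3 (A B C : Submodule (ZMod 2) W) : Prop :=
  ∀ x ∈ A, ∀ y ∈ B, ∀ z ∈ C, x + y + z ∈ A ∨ x + y + z ∈ B ∨ x + y + z ∈ C

variable {A B C Y : Submodule (ZMod 2) W}

theorem U3.s12 (h : U3 A B C) : U3 B A C := by
  intro x hx y hy z hz
  have := h y hy x hx z hz
  rw [show y + x + z = x + y + z from by abel] at this
  tauto

theorem U3.s23 (h : U3 A B C) : U3 A C B := by
  intro x hx y hy z hz
  have := h x hx z hz y hy
  rw [show x + z + y = x + y + z from by abel] at this
  tauto

theorem U3.s13 (h : U3 A B C) : U3 C B A := h.s12.s23.s12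

theorem U3.of_shift {w : W} (h : ∀ x ∈ A, ∀ y ∈ B, ∀ z ∈ C,
    w + x + y + z ∈ A ∨ w + x + y + z ∈ B ∨ w + x + y + z ∈ C) : U3 A B C := by
  intro x hx y hy z hz
  have h0 := h 0 A.zero_mem 0 B.zero_mem 0 C.zero_mem
  rw [add_zero, add_zero, add_zero] at h0
  rcases h0 with h0 | h0 | h0
  · have := h (w + x) (A.add_mem h0 hx) y hy z hz
    rwa [xx] at this
  · have := h x hx (w + y) (B.add_mem h0 hy) z hz
    rwa [show w + x + (w + y) + z = x + y + z from eo (by
      abel_nf <;> simp only [ch2, ch3, ch4, add_zero, zero_add])] at this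
  · have := h x hx y hy (w + z) (C.add_mem h0 hz)
    rwa [show w + x + y + (w + z) = x + y + z from eo (by
      abel_nf <;> simp only [ch2, ch3, ch4, add_zero, zero_add])] at this

theorem U3.two (h : U3 A B C) (h1 : A ≤ B) : C ≤ B ∨ B ≤ C := by
  by_contra hcon
  push Not at hcon
  obtain ⟨h2, h3⟩ := hcon
  obtain ⟨z, hz, hzB⟩ := SetLike.not_le_iff_exists.1 h2
  obtain ⟨y, hy, hyC⟩ := SetLike.not_le_iff_exists.1 h3
  have h4 := h 0 A.zero_mem y hy z hz
  rw [zero_add] at h4
  have h5 : y + z ∈ B → False := fun h6 => hzB (by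
    have := B.add_mem hy h6
    rwa [xx] at this)
  rcases h4 with h4 | h4 | h4
  · exact h5 (h1 h4)
  · exact h5 h4
  · apply hyC
    have := C.add_mem h4 hz
    rwa [xy] at this

/-- three subspaces of index two over a common subspace -/
structure Kn (A B C : Submodule (ZMod 2) W) : Prop where
  u : U3 A B C
  ab : ¬ A ≤ B
  ba : ¬ B ≤ A
  ac : ¬ A ≤ C
  ca : ¬ C ≤ A
  bc : ¬ B ≤ C
  cb : ¬ C ≤ B

theorem tri (h : U3 A B C) :
    (B ≤ A ∧ C ≤ A) ∨ (A ≤ B ∧ C ≤ B) ∨ (A ≤ C ∧ B ≤ C) ∨ Kn A B C := by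
  have key : ∀ {A B C : Submodule (ZMod 2) W}, U3 A B C → A ≤ B →
      (A ≤ B ∧ C ≤ B) ∨ (A ≤ C ∧ B ≤ C) := by
    intro A B C h h1
    rcases h.two h1 with h2 | h2
    · exact Or.inl ⟨h1, h2⟩
    · exact Or.inr ⟨h1.trans h2, h2⟩
  by_cases ab : A ≤ B
  · have := key h ab; tauto
  by_cases ba : B ≤ A
  · have := key h.s12 ba; tauto
  by_cases ac : A ≤ C
  · have := key h.s23 ac; tauto
  by_cases ca : C ≤ A
  · have := key h.s13.s23 ca; tauto
  by_cases bc : B ≤ C
  · have := key h.s12.s23 bc; tauto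
  by_cases cb : C ≤ B
  · have := key h.s13 cb; tauto
  exact Or.inr (Or.inr (Or.inr ⟨h, ab, ba, ac, ca, bc, cb⟩))

namespace Kn

theorem s12 (K : Kn A B C) : Kn B A C := ⟨K.u.s12, K.ba, K.ab, K.bc, K.cb, K.ac, K.ca⟩

theorem s23 (K : Kn A B C) : Kn A C B := ⟨K.u.s23, K.ac, K.ca, K.ab, K.ba, K.cb, K.bc⟩

theorem s13 (K : Kn A B C) : Kn C B A := K.s12.s23.s12

theorem sab (K : Kn A B C) {x y : W} (hx : x ∈ A) (hxB : x ∉ B) (hy : y ∈ B) (hyA : y ∉ A) :
    x + y ∈ C := by
  have h := K.u x hx y hy 0 C.zero_mem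
  rw [add_zero] at h
  rcases h with h | h | h
  · exfalso
    apply hyA
    have := A.add_mem hx h
    rwa [xx] at this
  · exfalso
    apply hxB
    have := B.add_mem h hy
    rwa [xy] at this
  · exact h

theorem iab (K : Kn A B C) {x : W} (hx : x ∈ A) (hxB : x ∈ B) : x ∈ C := by
  obtain ⟨a, ha, haB⟩ := SetLike.not_le_iff_exists.1 K.ab
  obtain ⟨b, hb, hbA⟩ := SetLike.not_le_iff_exists.1 K.ba
  have h1 := K.sab ha haB hb hbA
  have h2 := K.sab (A.add_mem ha hx) (fun h3 => haB (by
    have := B.add_mem h3 hxB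
    rwa [xy] at this)) hb hbA
  have h3 := C.add_mem h1 h2
  rwa [show a + b + (a + x + b) = x from eo (by
    abel_nf <;> simp only [ch2, ch3, ch4, add_zero, zero_add])] at h3

/-- `A ∩ B` has index two in `A` -/
theorem ixa (K : Kn A B C) {x y : W} (hx : x ∈ A) (hxB : x ∉ B) (hy : y ∈ A) (hyB : y ∉ B) :
    x + y ∈ B := by
  obtain ⟨b, hb, hbA⟩ := SetLike.not_le_iff_exists.1 K.ba
  have h1 := K.sab hx hxB hb hbA
  have h2 := K.sab hy hyB hb hbA
  have h3 := C.add_mem h1 h2
  rw [show x + b + (y + b) = x + y from eo (by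
    abel_nf <;> simp only [ch2, ch3, ch4, add_zero, zero_add])] at h3
  exact K.s23.iab (A.add_mem hx hy) h3

theorem card_le [Finite W] (K : Kn A B C) : Nat.card A ≤ Nat.card B := by
  classical
  obtain ⟨a, ha, haB⟩ := SetLike.not_le_iff_exists.1 K.ab
  obtain ⟨b, hb, hbA⟩ := SetLike.not_le_iff_exists.1 K.ba
  have hB : ∀ x : A, (x : W) ∉ B → (x : W) + a + b ∈ B := fun x hx =>
    B.add_mem (K.ixa x.2 hx ha haB) hb
  let f : A → B := fun x => if hx : (x : W) ∈ B then ⟨x, hx⟩ else ⟨x + a + b, hB x hx⟩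
  have hf : Function.Injective f := by
    intro x y hxy
    by_cases hx : (x : W) ∈ B
    · by_cases hy : (y : W) ∈ B
      · simp only [f, hx, hy, dif_pos, Subtype.mk.injEq] at hxy
        exact Subtype.ext hxy
      · exfalso
        simp only [f, hx, hy, dif_pos, dif_neg, Subtype.mk.injEq, not_false_eq_true] at hxy
        apply hbA
        have := A.add_mem (A.add_mem y.2 ha) x.2
        rwa [hxy, xx] at this
    · by_cases hy : (y : W) ∈ B
      · exfalso
        simp only [f, hx, hy, dif_pos, dif_neg, Subtype.mk.injEq, not_false_eq_true] at hxy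
        apply hbA
        have := A.add_mem (A.add_mem x.2 ha) y.2
        rwa [← hxy, xx] at this
      · simp only [f, hx, hy, dif_neg, Subtype.mk.injEq, not_false_eq_true] at hxy
        exact Subtype.ext (add_right_cancel (add_right_cancel hxy))
  exact Nat.card_le_card_of_injective f hf

theorem card_eq [Finite W] (K : Kn A B C) : Nat.card A = Nat.card B :=
  le_antisymm K.card_le K.s12.card_le

/-- `x ∈ C` outside `A ∩ B` determines `C` -/
theorem of_mem (K : Kn A B C) {D : Submodule (ZMod 2) W} (h1 : ∀ x ∈ A, x ∈ B → x ∈ D) {x : W}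
    (hx : x ∈ C) (hxA : x ∉ A) (hxD : x ∈ D) : C ≤ D := by
  intro y hy
  by_cases hyA : y ∈ A
  · exact h1 y hyA (K.s23.iab hyA hy)
  · have h2 := K.s13.s23.ixa hy hyA hx hxA
    have h3 := K.s23.iab h2 (C.add_mem hy hx)
    have := D.add_mem (h1 _ h2 h3) hxD
    rwa [xy] at this

end Kn

end Pool.Agent.ETPQ
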