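import Pool.Agent.ETPQ.Cl1

/-!
Note 2842 (helper88), section 1: the classes of a slot-free subspace `Y` of maximal dimension
under (3N).
-/

set_option autoImplicit false
set_option linter.unusedSimpArgs false
set_option linter.unnecessarySeqFocus false
set_option linter.unusedSectionVars false

namespace Pool.Agent.ETPQ

open Pool.Agent.ETPF (OS)
open Pool.Agent.ETPF.OS
open Pool.Agent.ETCP (ch2 ch3 ch4 eo)
open Pool.Agent.ETPG (mkS)
open ETC (zm)

variable {W : Type} [AddCommGroup W] [Module (ZMod 2) W]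

/-- (3N) -/
def N3 (O : OS W) : Prop := ∀ a b e, O.Sl a → O.Sl b → O.Sl e → ¬ O.Sl (a + b) →
  ¬ O.Sl (a + e) → ¬ O.Sl (b + e) → O.Sl (a + b + e)

/-- the differences of the slots in the class of `v` -/
def Dv (O : OS W) (Y : Submodule (ZMod 2) W) (v : W) : Submodule (ZMod 2) W :=
  mkS (fun d => d ∈ Y ∧ ∀ s, O.Sl s → s + v ∈ Y → O.Sl (s + d))
    ⟨Y.zero_mem, fun s h _ => by rwa [add_zero]⟩ (by
      rintro a b ⟨h1, h2⟩ ⟨h3, h4⟩
      refine ⟨Y.add_mem h1 h3, fun s hs hv => ?_⟩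
      rw [← add_assoc]
      refine h4 _ (h2 s hs hv) ?_
      have := Y.add_mem hv h1
      rwa [show s + v + a = s + a + v from by abel] at this)

theorem mem_Dv {O : OS W} {Y : Submodule (ZMod 2) W} {v d : W} :
    d ∈ Dv O Y v ↔ d ∈ Y ∧ ∀ s, O.Sl s → s + v ∈ Y → O.Sl (s + d) := Iff.rfl

/-- `Y` is a slot-free subspace of maximal dimension, (3N) holds -/
structure MY (O : OS W) (Y : Submodule (ZMod 2) W) : Prop where
  n3 : N3 O
  av : ∀ s, O.Sl s → s ∉ Y
  mx : ∀ Y' : Submodule (ZMod 2) W, (∀ s, O.Sl s → s ∉ Y') → Nat.card Y' ≤ Nat.card Y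

/-- the class of `v` consists of slots -/
def Fu (O : OS W) (Y : Submodule (ZMod 2) W) (v : W) : Prop := v ∉ Y ∧ Y ≤ Dv O Y v

/-- the class of `v` is not full -/
def Bu (O : OS W) (Y : Submodule (ZMod 2) W) (v : W) : Prop := v ∉ Y ∧ ¬ Y ≤ Dv O Y v

section
variable {O : OS W} {Y : Submodule (ZMod 2) W}

theorem Dv_le {v : W} : Dv O Y v ≤ Y := fun _ h => h.1

theorem Dv_cls {v v' : W} (h : v + v' ∈ Y) : Dv O Y v = Dv O Y v' := by
  have key : ∀ {v v' : W}, v + v' ∈ Y → Dv O Y v ≤ Dv O Y v' := by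
    intro v v' h d hd
    refine ⟨hd.1, fun s hs hv => hd.2 s hs ?_⟩
    have := Y.add_mem hv h
    rwa [show s + v' + (v + v') = s + v from eo (by
      abel_nf <;> simp only [ch2, ch3, ch4, add_zero, zero_add])] at this
  exact le_antisymm (key h) (key (by rwa [add_comm]))

theorem mem_cls {v v' : W} (h : v + v' ∈ Y) (hv : v ∈ Y) : v' ∈ Y := by
  have := Y.add_mem hv h
  rwa [xx] at this

theorem Fu.cls {v v' : W} (h : v + v' ∈ Y) (hv : Fu O Y v) : Fu O Y v' :=
  ⟨fun h1 => hv.1 (mem_cls (by rwa [add_comm]) h1), by rw [← Dv_cls h]; exact hv.2⟩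

theorem Bu.cls {v v' : W} (h : v + v' ∈ Y) (hv : Bu O Y v) : Bu O Y v' :=
  ⟨fun h1 => hv.1 (mem_cls (by rwa [add_comm]) h1), by rw [← Dv_cls h]; exact hv.2⟩

theorem Fu_or {v : W} (h : v ∉ Y) : Fu O Y v ∨ Bu O Y v := by
  by_cases h1 : Y ≤ Dv O Y v
  · exact Or.inl ⟨h, h1⟩
  · exact Or.inr ⟨h, h1⟩

theorem Fu.not_Bu {v : W} (h : Fu O Y v) : ¬ Bu O Y v := fun h' => h'.2 h.2

end

namespace MY

variable {O : OS W} {Y : Submodule (ZMod 2) W} (M : MY O Y)

include M

theorem nslot {x : W} (h : x ∈ Y) : ¬ O.Sl x := fun h' => M.av x h' h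

/-- every class contains a slot -/
theorem ex [Finite W] {v : W} (h : v ∉ Y) : ∃ s, O.Sl s ∧ s + v ∈ Y := by
  by_contra hcon
  push Not at hcon
  have := M.mx (ad Y v) (by
    rintro s hs (h1 | h1)
    · exact M.av s hs h1
    · exact hcon s hs h1)
  rw [card_ad h] at this
  have := card_pos Y
  omega

theorem diff {s s' v : W} (hs : O.Sl s) (hs' : O.Sl s') (h : s + v ∈ Y) (h' : s' + v ∈ Y) :
    s + s' ∈ Dv O Y v := by
  have h1 : s + s' ∈ Y := by
    have := Y.add_mem h h'
    rwa [show s + v + (s' + v) = s + s' from eo (by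
      abel_nf <;> simp only [ch2, ch3, ch4, add_zero, zero_add])] at this
  refine ⟨h1, fun t ht htv => ?_⟩
  rw [← add_assoc]
  refine M.n3 t s s' ht hs hs' (M.nslot ?_) (M.nslot ?_) (M.nslot h1)
  · have := Y.add_mem htv h
    rwa [show t + v + (s + v) = t + s from eo (by
      abel_nf <;> simp only [ch2, ch3, ch4, add_zero, zero_add])] at this
  · have := Y.add_mem htv h'
    rwa [show t + v + (s' + v) = t + s' from eo (by
      abel_nf <;> simp only [ch2, ch3, ch4, add_zero, zero_add])] at this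

/-- `s + d ∈ S` for `d ∈ D_s`, and conversely -/
theorem slot_add {s d : W} (hs : O.Sl s) (hd : d ∈ Dv O Y s) : O.Sl (s + d) :=
  hd.2 s hs (by rw [tt]; exact Y.zero_mem)

theorem of_slot {s d : W} (hs : O.Sl s) (hd : d ∈ Y) (h : O.Sl (s + d)) : d ∈ Dv O Y s := by
  have := M.diff (v := s) hs h (by rw [tt]; exact Y.zero_mem) (by
    rwa [show s + d + s = d from eo (by
      abel_nf <;> simp only [ch2, ch3, ch4, add_zero, zero_add])])
  rwa [xx] at this

/-- a full class consists of slots -/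
theorem fu_slot [Finite W] {v : W} (h : Fu O Y v) : O.Sl v := by
  obtain ⟨s, hs, hsv⟩ := M.ex h.1
  have := (h.2 hsv).2 s hs hsv
  rwa [xx] at this

theorem bu_of [Finite W] {v : W} (h : v ∉ Y) (h' : ¬ O.Sl v) : Bu O Y v :=
  (Fu_or h).resolve_left fun h1 => h' (M.fu_slot h1)

/-- a class of slots is full -/
theorem fu_of {v : W} (h : v ∉ Y) (h' : ∀ y ∈ Y, O.Sl (v + y)) : Fu O Y v := by
  refine ⟨h, fun y hy => ?_⟩
  have h0 := h' 0 Y.zero_mem
  rw [add_zero] at h0
  exact M.of_slot h0 hy (h' y hy)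

/-- **LINE LAW** -/
theorem line {s t r : W} (hs : O.Sl s) (ht : O.Sl t) (hr : O.Sl r) (h : s + t + r ∈ Y) :
    s + t + r ∈ Dv O Y s ∨ s + t + r ∈ Dv O Y t ∨ s + t + r ∈ Dv O Y r := by
  by_contra hcon
  push Not at hcon
  obtain ⟨h1, h2, h3⟩ := hcon
  refine M.nslot h (M.n3 s t r hs ht hr (fun h4 => h3 ?_) (fun h4 => h2 ?_) fun h4 => h1 ?_)
  · refine M.of_slot hr h ?_
    rwa [show r + (s + t + r) = s + t from eo (by
      abel_nf <;> simp only [ch2, ch3, ch4, add_zero, zero_add])]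
  · refine M.of_slot ht h ?_
    rwa [show t + (s + t + r) = s + r from eo (by
      abel_nf <;> simp only [ch2, ch3, ch4, add_zero, zero_add])]
  · refine M.of_slot hs h ?_
    rwa [show s + (s + t + r) = t + r from eo (by
      abel_nf <;> simp only [ch2, ch3, ch4, add_zero, zero_add])]

theorem u3 [Finite W] {u v w : W} (hu : u ∉ Y) (hv : v ∉ Y) (hw : w ∉ Y) (h : u + v + w ∈ Y) :
    U3 (Dv O Y u) (Dv O Y v) (Dv O Y w) := by
  obtain ⟨s, hs, hsu⟩ := M.ex hu
  obtain ⟨t, ht, htv⟩ := M.ex hv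
  obtain ⟨r, hr, hrw⟩ := M.ex hw
  refine U3.of_shift (w := s + t + r) fun x hx y hy z hz => ?_
  have h1 := hx.2 s hs hsu
  have h2 := hy.2 t ht htv
  have h3 := hz.2 r hr hrw
  have e : s + x + (t + y) + (r + z) = s + t + r + x + y + z := by abel
  have h4 : s + x + (t + y) + (r + z) ∈ Y := by
    have h5 := Y.add_mem (Y.add_mem (Y.add_mem hsu htv) hrw) h
    have h6 := Y.add_mem (Y.add_mem (Y.add_mem h5 hx.1) hy.1) hz.1
    rwa [show s + u + (t + v) + (r + w) + (u + v + w) + x + y + z = s + x + (t + y) + (r + z)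
      from eo (by
        abel_nf <;> simp only [ch2, ch3, ch4, add_zero, zero_add])] at h6
  have h5 := M.line h1 h2 h3 h4
  rw [e] at h5
  have c1 : Dv O Y (s + x) = Dv O Y u := Dv_cls (by
    have := Y.add_mem hsu hx.1
    rwa [show s + u + x = s + x + u from by abel] at this)
  have c2 : Dv O Y (t + y) = Dv O Y v := Dv_cls (by
    have := Y.add_mem htv hy.1
    rwa [show t + v + y = t + y + v from by abel] at this)
  have c3 : Dv O Y (r + z) = Dv O Y w := Dv_cls (by
    have := Y.add_mem hrw hz.1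
    rwa [show r + w + z = r + z + w from by abel] at this)
  rwa [c1, c2, c3] at h5

theorem tri [Finite W] {u v : W} (hu : u ∉ Y) (hv : v ∉ Y) (hw : u + v ∉ Y) :
    (Dv O Y v ≤ Dv O Y u ∧ Dv O Y (u + v) ≤ Dv O Y u) ∨
    (Dv O Y u ≤ Dv O Y v ∧ Dv O Y (u + v) ≤ Dv O Y v) ∨
    (Dv O Y u ≤ Dv O Y (u + v) ∧ Dv O Y v ≤ Dv O Y (u + v)) ∨
    Kn (Dv O Y u) (Dv O Y v) (Dv O Y (u + v)) :=
  ETPQ.tri (M.u3 hu hv hw (by rw [tt]; exact Y.zero_mem))

/-- **(1c) NEXT LEMMA**, one half -/
theorem next1 [Finite W] {u v : W} (hu : Fu O Y u) (hv : Bu O Y v) (hw : Bu O Y (u + v)) :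
    Dv O Y v ≤ Dv O Y (u + v) ∧ Ix (Dv O Y (u + v)) Y := by
  obtain ⟨d, hd, hdv⟩ := SetLike.not_le_iff_exists.1 hv.2
  obtain ⟨f, f1, f2⟩ := ETC.exists_dual_sep hdv
  obtain ⟨s0, hs0, hs0v⟩ := M.ex hv.1
  -- `a = s0 + d` is not a slot
  have key : ∀ y ∈ Y, f y = 0 → y ∈ Dv O Y (u + v) := by
    intro y hy hfy
    refine ⟨hy, fun b hb hbw => ?_⟩
    have e1 : O.Sl (s0 + d + b) := by
      refine M.fu_slot (hu.cls (v := u) ?_)
      have := Y.add_mem (Y.add_mem hs0v hd) hbw
      rwa [show s0 + v + d + (b + (u + v)) = u + (s0 + d + b) from eo (by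
        abel_nf <;> simp only [ch2, ch3, ch4, add_zero, zero_add])] at this
    have e2 : O.Sl (s0 + d + b + y) := by
      refine M.fu_slot (hu.cls (v := u) ?_)
      have := Y.add_mem (Y.add_mem (Y.add_mem hs0v hd) hbw) hy
      rwa [show s0 + v + d + (b + (u + v)) + y = u + (s0 + d + b + y) from eo (by
        abel_nf <;> simp only [ch2, ch3, ch4, add_zero, zero_add])] at this
    have na : ∀ z ∈ Y, f z = 0 → ¬ O.Sl (s0 + d + z) := by
      intro z hz hfz hsl
      have h1 := M.diff (v := v) hs0 hsl hs0v (by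
        have := Y.add_mem (Y.add_mem hs0v hd) hz
        rwa [show s0 + v + d + z = s0 + d + z + v from by abel] at this)
      have h2 := f2 _ h1
      rw [show s0 + (s0 + d + z) = d + z from eo (by
        abel_nf <;> simp only [ch2, ch3, ch4, add_zero, zero_add]), map_add, f1, hfz,
        add_zero] at h2
      exact one_ne_zero h2
    have h3 := M.n3 b (s0 + d + b) (s0 + d + b + y) hb e1 e2 (by
      rw [show b + (s0 + d + b) = s0 + d + 0 from eo (by
        abel_nf <;> simp only [ch2, ch3, ch4, add_zero, zero_add])]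
      exact na 0 Y.zero_mem (map_zero f)) (by
      rw [show b + (s0 + d + b + y) = s0 + d + y from eo (by
        abel_nf <;> simp only [ch2, ch3, ch4, add_zero, zero_add])]
      exact na y hy hfy) (by
      rw [xx]
      exact M.nslot hy)
    rwa [show b + (s0 + d + b) + (s0 + d + b + y) = b + y from eo (by
      abel_nf <;> simp only [ch2, ch3, ch4, add_zero, zero_add])] at h3
  refine ⟨fun y hy => key y hy.1 (f2 y hy), ?_⟩
  refine ⟨Dv_le, ?_, fun x hx hxn y hy hyn => key _ (Y.add_mem hx hy) ?_⟩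
  · obtain ⟨y, hy, hyn⟩ := SetLike.not_le_iff_exists.1 hw.2
    exact ⟨y, hy, hyn⟩
  · have hx1 := (zm (f x)).resolve_left fun h => hxn (key x hx h)
    have hy1 := (zm (f y)).resolve_left fun h => hyn (key y hy h)
    rw [map_add, hx1, hy1]; decide

/-- **(1c) NEXT LEMMA** -/
theorem next [Finite W] {u v : W} (hu : Fu O Y u) (hv : Bu O Y v) (hw : Bu O Y (u + v)) :
    Dv O Y v = Dv O Y (u + v) ∧ Ix (Dv O Y v) Y := by
  have h1 := M.next1 hu hv hw
  have h2 := M.next1 hu hw (by rwa [xx])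
  rw [xx] at h2
  exact ⟨le_antisymm h1.1 h2.1, h2.2⟩

/-- **(1a)** -/
theorem spn [Finite W] (sp : ∀ v, v ∈ Submodule.span (ZMod 2) {s | O.Sl s})
    {G : Submodule (ZMod 2) W} (hG : G ≤ Y) (h : ∀ v, v ∉ Y → Dv O Y v ≤ G) : Y ≤ G := by
  let T : Submodule (ZMod 2) W := mkS (fun v => v ∈ G ∨ ∃ s, O.Sl s ∧ s + v ∈ G)
    (Or.inl G.zero_mem) (by
      rintro a b (ha | ⟨s, hs, ha⟩) (hb | ⟨t, ht, hb⟩)
      · exact Or.inl (G.add_mem ha hb)
      · refine Or.inr ⟨t, ht, ?_⟩
        have := G.add_mem ha hb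
        rwa [show a + (t + b) = t + (a + b) from by abel] at this
      · refine Or.inr ⟨s, hs, ?_⟩
        have := G.add_mem ha hb
        rwa [show s + a + b = s + (a + b) from by abel] at this
      · have hab := G.add_mem ha hb
        by_cases hst : s + t ∈ Y
        · left
          have h1 := h t (M.av t ht) (M.diff (v := t) hs ht hst (by rw [tt]; exact Y.zero_mem))
          have := G.add_mem hab h1
          rwa [show s + a + (t + b) + (s + t) = a + b from eo (by
            abel_nf <;> simp only [ch2, ch3, ch4, add_zero, zero_add])] at this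
        · right
          obtain ⟨r, hr, hrst⟩ := M.ex hst
          refine ⟨r, hr, ?_⟩
          have h1 : s + t + r ∈ G := by
            rcases M.line hs ht hr (by rwa [add_comm]) with h2 | h2 | h2
            · exact h s (M.av s hs) h2
            · exact h t (M.av t ht) h2
            · exact h r (M.av r hr) h2
          have := G.add_mem hab h1
          rwa [show s + a + (t + b) + (s + t + r) = r + (a + b) from eo (by
            abel_nf <;> simp only [ch2, ch3, ch4, add_zero, zero_add])] at this)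
  have hT : ∀ v, v ∈ T := fun v => Submodule.span_le.2 (fun s hs =>
    Or.inr ⟨s, hs, by rw [tt]; exact G.zero_mem⟩) (sp v)
  intro y hy
  by_contra hyG
  rcases hT y with h1 | ⟨s, hs, h1⟩
  · exact hyG h1
  · exact M.av s hs (by
      have := Y.add_mem (hG h1) hy
      rwa [xy] at this)

end MY

end Pool.Agent.ETPQ
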