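import Pool.Agent.ETPQ.Cl2

/-!
Note 2842 (helper88), (1b): under (3N) some class of a slot-free subspace of maximal dimension
is full.
-/

set_option autoImplicit false
set_option linter.unusedSimpArgs false
set_option linter.unnecessarySeqFocus false
set_option linter.unusedSectionVars false

namespace Pool.Agent.ETPQ

open Pool.Agent.ETPF (OS)
open Pool.Agent.ETPF.OS
open Pool.Agent.ETCP (ch2 ch3 ch4 eo)
open Pool.Agent.ETPG (mkS)
open ETC (zm)

variable {W : Type} [AddCommGroup W] [Module (ZMod 2) W]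

namespace Kn

variable {A B C C' U : Submodule (ZMod 2) W}

theorem uniq_le (K : Kn A B C) (K' : Kn A B C') : C ≤ C' := by
  obtain ⟨a, ha, haB⟩ := SetLike.not_le_iff_exists.1 K.ab
  obtain ⟨b, hb, hbA⟩ := SetLike.not_le_iff_exists.1 K.ba
  refine K.of_mem (fun x h1 h2 => K'.iab h1 h2) (K.sab ha haB hb hbA) (fun h => hbA ?_)
    (K'.sab ha haB hb hbA)
  have := A.add_mem ha h
  rwa [xx] at this

theorem uniq (K : Kn A B C) (K' : Kn A B C') : C = C' := le_antisymm (K.uniq_le K') (K'.uniq_le K)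

theorem fk (K : Kn A B C) (hA : A ≤ U) (hB : Ix B U) {f g : Module.Dual (ZMod 2) W}
    (hf : Fk f A U) (hg : Fk g B U) : Fk (f + g) C U := by
  obtain ⟨a, ha, haB⟩ := SetLike.not_le_iff_exists.1 K.ab
  intro x hx
  rw [LinearMap.add_apply]
  constructor
  · intro h
    by_cases hxA : x ∈ A
    · rw [(hf x hx).2 hxA, zero_add] at h
      exact K.iab hxA ((hg x hx).1 h)
    · have h1 := hf.one hx hxA
      have hxB : x ∉ B := by
        intro h2
        rw [h1, (hg x hx).2 h2, add_zero] at h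
        exact one_ne_zero h
      have h2 := hB.ix x hx hxB a (hA ha) haB
      have h3 : x + a ∉ A := fun h4 => hxA (by
        have := A.add_mem h4 ha
        rwa [xy] at this)
      have h4 := K.sab ha haB h2 h3
      rwa [show a + (x + a) = x from eo (by
        abel_nf <;> simp only [ch2, ch3, ch4, add_zero, zero_add])] at h4
  · intro hxC
    by_cases hxA : x ∈ A
    · rw [(hf x hx).2 hxA, (hg x hx).2 (K.s23.iab hxA hxC), add_zero]
    · have hxB : x ∉ B := fun h => hxA (K.s12.s23.iab h hxC)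
      rw [hf.one hx hxA, hg.one hx hxB]; decide

end Kn

/-- an element outside all `D n`, `n ∈ N`, for a family of subspaces of index two of `U` over an
affine space `N` -/
theorem out_of {U : Submodule (ZMod 2) W} {N : W → Prop} {D : W → Submodule (ZMod 2) W}
    (n3 : ∀ a b c, N a → N b → N c → N (a + b + c)) {n1 : W} (h1 : N n1)
    (ix : ∀ n, N n → Ix (D n) U)
    (ad : ∀ a b c, N a → N b → N c → ∀ f g h : Module.Dual (ZMod 2) W, Fk f (D a) U →
      Fk g (D b) U → Fk h (D c) U → Fk (f + g + h) (D (a + b + c)) U) [Finite W] :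
    ∃ a ∈ U, ∀ n, N n → a ∉ D n := by
  obtain ⟨f1, hf1⟩ := (ix n1 h1).fn
  let G : Submodule (ZMod 2) (Module.Dual (ZMod 2) W) :=
    mkS (fun g => ∃ n, N n ∧ Fk (g + f1) (D n) U) ⟨n1, h1, by rwa [zero_add]⟩ (by
      rintro g g' ⟨n, hn, h⟩ ⟨n', hn', h'⟩
      refine ⟨n + n' + n1, n3 _ _ _ hn hn' h1, ?_⟩
      have := ad n n' n1 hn hn' h1 _ _ _ h h' hf1
      rwa [show g + f1 + (g' + f1) + f1 = g + g' + f1 from eo (by
        abel_nf <;> simp only [ch2, ch3, ch4, add_zero, zero_add])] at this)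
  have hG : f1 ∉ G := by
    rintro ⟨n, hn, h⟩
    rw [tt] at h
    obtain ⟨y, hy, hyn⟩ := (ix n hn).ex
    exact hyn ((h y hy).1 rfl)
  obtain ⟨F, F1, F2⟩ := ETC.exists_dual_sep hG
  obtain ⟨a, rfl⟩ := (Module.evalEquiv (ZMod 2) W).surjective F
  rw [Module.evalEquiv_apply, Module.Dual.eval_apply] at F1
  refine ⟨a, ?_, fun n hn han => ?_⟩
  · by_contra hcon
    obtain ⟨g, g1, g2⟩ := ETC.exists_dual_sep hcon
    have : g ∈ G := ⟨n1, h1, fun y hy => by
      rw [LinearMap.add_apply, g2 y hy, zero_add]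
      exact hf1 y hy⟩
    have := F2 g this
    rw [Module.evalEquiv_apply, Module.Dual.eval_apply, g1] at this
    exact one_ne_zero this
  · obtain ⟨f, hf⟩ := (ix n hn).fn
    have h2 : f + f1 ∈ G := ⟨n, hn, by rwa [xy]⟩
    have h3 := F2 _ h2
    rw [Module.evalEquiv_apply, Module.Dual.eval_apply, LinearMap.add_apply, F1] at h3
    have h4 := (hf a ((ix n hn).le han)).2 han
    rw [h4, zero_add] at h3
    exact one_ne_zero h3

/-- the claim in the proof of (1b) -/
theorem claim [Finite W] {Y : Submodule (ZMod 2) W} {N Mx : W → Prop}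
    {D : W → Submodule (ZMod 2) W}
    (n3 : ∀ a b c, N a → N b → N c → N (a + b + c)) {n0 : W} (h0 : N n0)
    (nm : ∀ n, N n → Mx n) (cd : ∀ u v, Mx u → Mx v → Nat.card (D u) = Nat.card (D v))
    (A1 : ∀ u v, Mx u → Mx v → D u ≠ D v → Kn (D u) (D v) (D (u + v)) ∧ Mx (u + v))
    (A3 : ∀ u v, Mx u → Mx v → D u = D v → ¬ Mx (u + v))
    (le : ∀ n, D n ≤ Y) (nf : ∀ n, Mx n → ¬ Y ≤ D n) : ∃ a ∈ Y, ∀ n, N n → a ∉ D n := by
  by_cases hall : ∀ n, N n → D n = D n0
  · obtain ⟨a, ha, han⟩ := SetLike.not_le_iff_exists.1 (nf n0 (nm n0 h0))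
    exact ⟨a, ha, fun n hn => by rwa [hall n hn]⟩
  push Not at hall
  obtain ⟨n2, hn2, hne⟩ := hall
  obtain ⟨K, m12⟩ := A1 n0 n2 (nm _ h0) (nm _ hn2) (Ne.symm hne)
  by_cases hA : ∀ n, N n → ∀ x ∈ D n0, x ∈ D n2 → x ∈ D n
  · -- case A
    obtain ⟨p, hp, hpn⟩ := SetLike.not_le_iff_exists.1 K.ca
    refine ⟨p, le _ hp, fun n hn hpD => ?_⟩
    have h1 : D (n0 + n2) ≤ D n := K.of_mem (hA n hn) hp hpn hpD
    have h2 := eq_of_le_card h1 (cd _ _ (nm n hn) m12).le
    exact A3 _ _ m12 (nm n hn) h2 (nm _ (n3 _ _ _ h0 hn2 hn))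
  · push Not at hA
    obtain ⟨n4, hn4, z, hz0, hz2, hz4⟩ := hA
    -- all `D n` are in `U = D n0 + D n2`
    have L : ∀ n, N n → z ∉ D n → D n ≤ D n0 ⊔ D n2 := by
      intro n hn hz
      have e0 : D n ≠ D n0 := fun h => hz (by rw [h]; exact hz0)
      have e2 : D n ≠ D n2 := fun h => hz (by rw [h]; exact hz2)
      have K0 := (A1 n n0 (nm _ hn) (nm _ h0) e0).1
      have K2 := (A1 n n2 (nm _ hn) (nm _ hn2) e2).1
      obtain ⟨w, hw, hw0, hw2⟩ : ∃ w ∈ D n, w ∈ D n0 ∧ w ∉ D n2 := by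
        by_contra hcon
        push Not at hcon
        obtain ⟨p, hp, hp2⟩ := SetLike.not_le_iff_exists.1 K.ab
        have h1 : p ∉ D n := fun h => hp2 (hcon p h hp)
        have h2 := K0.s12.ixa hp h1 hz0 hz
        have h3 := hcon _ h2 ((D n0).add_mem hp hz0)
        apply hp2
        have := (D n2).add_mem h3 hz2
        rwa [xy] at this
      intro x hx
      by_cases hx2 : x ∈ D n2
      · exact Submodule.mem_sup_right hx2
      · have h1 := K2.ixa hx hx2 hw hw2
        have := Submodule.add_mem _ (Submodule.mem_sup_right h1 : x + w ∈ D n0 ⊔ D n2)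
          (Submodule.mem_sup_left hw0 : w ∈ D n0 ⊔ D n2)
        rwa [xy] at this
    have L' : ∀ n, N n → D n ≤ D n0 ⊔ D n2 := by
      intro n hn
      by_cases hz : z ∈ D n
      · have e4 : D n ≠ D n4 := fun h => hz4 (by rw [← h]; exact hz)
        have K4 := (A1 n n4 (nm _ hn) (nm _ hn4) e4).1
        intro x hx
        by_cases hx4 : x ∈ D n4
        · exact L n4 hn4 hz4 hx4
        · have h1 := L n4 hn4 hz4 (K4.ixa hx hx4 hz hz4)
          have := Submodule.add_mem _ h1 (Submodule.mem_sup_left hz0 : z ∈ D n0 ⊔ D n2)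
          rwa [xy] at this
      · exact L n hn hz
    -- index two
    have I0 : Ix (D n0) (D n0 ⊔ D n2) := by
      obtain ⟨b, hb, hb0⟩ := SetLike.not_le_iff_exists.1 K.ba
      refine ⟨le_sup_left, ⟨b, Submodule.mem_sup_right hb, hb0⟩, ?_⟩
      intro x hx hx0 y hy hy0
      obtain ⟨x0, hx0', x2, hx2, rfl⟩ := Submodule.mem_sup.1 hx
      obtain ⟨y0, hy0', y2, hy2, rfl⟩ := Submodule.mem_sup.1 hy
      have h1 : x2 ∉ D n0 := fun h => hx0 (Submodule.add_mem _ hx0' h)
      have h2 : y2 ∉ D n0 := fun h => hy0 (Submodule.add_mem _ hy0' h)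
      have h3 := K.s12.ixa hx2 h1 hy2 h2
      have := Submodule.add_mem _ (Submodule.add_mem _ hx0' hy0') h3
      rwa [show x0 + y0 + (x2 + y2) = x0 + x2 + (y0 + y2) from by abel] at this
    have I : ∀ n, N n → Ix (D n) (D n0 ⊔ D n2) := by
      intro n hn
      by_cases e0 : D n = D n0
      · rw [e0]; exact I0
      have K0 := (A1 n n0 (nm _ hn) (nm _ h0) e0).1
      obtain ⟨q, hq, hq0⟩ := SetLike.not_le_iff_exists.1 K0.ab
      obtain ⟨r, hr, hrn⟩ := SetLike.not_le_iff_exists.1 K0.ba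
      refine ⟨L' n hn, ⟨r, Submodule.mem_sup_left hr, hrn⟩, ?_⟩
      have key : ∀ x ∈ D n0 ⊔ D n2, x ∉ D n → ∃ x' ∈ D n0, x' ∉ D n ∧ x + x' ∈ D n := by
        intro x hx hxn
        by_cases hx0 : x ∈ D n0
        · exact ⟨x, hx0, hxn, by rw [tt]; exact Submodule.zero_mem _⟩
        · have h1 := I0.ix x hx hx0 q (L' n hn hq) hq0
          refine ⟨x + q, h1, fun h2 => hxn ?_, by rwa [xx]⟩
          have := Submodule.add_mem _ h2 hq
          rwa [xy] at this
      intro x hx hxn y hy hyn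
      obtain ⟨x', h1, h2, h3⟩ := key x hx hxn
      obtain ⟨y', h4, h5, h6⟩ := key y hy hyn
      have h7 := K0.s12.ixa h1 h2 h4 h5
      have := Submodule.add_mem _ (Submodule.add_mem _ h3 h6) h7
      rwa [show x + x' + (y + y') + (x' + y') = x + y from eo (by
        abel_nf <;> simp only [ch2, ch3, ch4, add_zero, zero_add])] at this
    obtain ⟨a, ha, han⟩ := out_of (U := D n0 ⊔ D n2) (D := D) n3 h0 I (by
      intro a b c ha hb hc f g h hf hg hh
      obtain ⟨k, hk⟩ := (I _ (n3 _ _ _ ha hb hc)).fn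
      -- the sum of two functionals on `U`
      have S : ∀ {a b : W} {f g : Module.Dual (ZMod 2) W}, N a → N b →
          Fk f (D a) (D n0 ⊔ D n2) → Fk g (D b) (D n0 ⊔ D n2) →
          (Mx (a + b) → Fk (f + g) (D (a + b)) (D n0 ⊔ D n2)) ∧
          (¬ Mx (a + b) → ∀ y ∈ D n0 ⊔ D n2, f y = g y) := by
        intro a b f g ha hb hf hg
        constructor
        · intro hm
          have e : D a ≠ D b := fun e => A3 _ _ (nm _ ha) (nm _ hb) e hm
          exact (A1 a b (nm _ ha) (nm _ hb) e).1.fk (L' a ha) (I b hb) hf hg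
        · intro hm
          have e : D a = D b := by
            by_contra e
            exact hm (A1 a b (nm _ ha) (nm _ hb) e).2
          intro y hy
          rw [← e] at hg
          exact hf.eqOn hg hy
      have S1 := S ha hb hf hg
      have S2 := S hc (n3 _ _ _ ha hb hc) hh hk
      have e : c + (a + b + c) = a + b := eo (by
        abel_nf <;> simp only [ch2, ch3, ch4, add_zero, zero_add])
      rw [e] at S2
      intro y hy
      rw [← hk y hy]
      have : (f + g + h) y = k y := by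
        simp only [LinearMap.add_apply]
        by_cases hm : Mx (a + b)
        · have := (S1.1 hm).eqOn (S2.1 hm) hy
          simp only [LinearMap.add_apply] at this
          rw [this, add_right_comm, tt, zero_add]
        · rw [S1.2 hm y hy, tt, zero_add]
          exact S2.2 hm y hy
      rw [this])
    refine ⟨a, ?_, han⟩
    exact (sup_le (le n0) (le n2)) ha

namespace MY

variable {O : OS W} {Y : Submodule (ZMod 2) W} (M : MY O Y)

include M

/-- **(1b)** some class is full -/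
theorem ex_full [Finite W] (sp : ∀ v, v ∈ Submodule.span (ZMod 2) {s | O.Sl s})
    (hne : ∃ s, O.Sl s) : ∃ v, Fu O Y v := by
  by_contra hcon
  push Not at hcon
  have bu : ∀ v, v ∉ Y → Bu O Y v := fun v hv => (Fu_or hv).resolve_left (hcon v)
  obtain ⟨s0, hs0⟩ := hne
  obtain ⟨u0, hu0, hmax⟩ := Set.exists_max_image {v | v ∉ Y}
    (fun v => Nat.card (Dv O Y v)) (Set.toFinite _) ⟨s0, M.av s0 hs0⟩
  have hmax' : ∀ v, v ∉ Y → Nat.card (Dv O Y v) ≤ Nat.card (Dv O Y u0) := hmax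
  let Mx : W → Prop := fun v => v ∉ Y ∧ Nat.card (Dv O Y v) = Nat.card (Dv O Y u0)
  have cle : ∀ {A B : Submodule (ZMod 2) W}, A ≤ B → Nat.card A ≤ Nat.card B := by
    intro A B h
    exact Nat.card_le_card_of_injective (Submodule.inclusion h) (Submodule.inclusion_injective h)
  have nY : ∀ u v, Mx u → Mx v → Dv O Y u ≠ Dv O Y v → u + v ∉ Y :=
    fun u v _ _ h h1 => h (Dv_cls h1)
  have A1 : ∀ u v, Mx u → Mx v → Dv O Y u ≠ Dv O Y v →
      Kn (Dv O Y u) (Dv O Y v) (Dv O Y (u + v)) ∧ Mx (u + v) := by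
    intro u v hu hv hne
    have h1 := nY u v hu hv hne
    rcases M.tri hu.1 hv.1 h1 with h2 | h2 | h2 | h2
    · exact absurd (eq_of_le_card h2.1 (by rw [hu.2, hv.2])) (Ne.symm hne)
    · exact absurd (eq_of_le_card h2.1 (by rw [hu.2, hv.2])) hne
    · have e1 := eq_of_le_card h2.1 (by rw [hu.2]; exact hmax' _ h1)
      have e2 := eq_of_le_card h2.2 (by rw [hv.2]; exact hmax' _ h1)
      exact absurd (e1.trans e2.symm) hne
    · exact ⟨h2, h1, by rw [← h2.s23.card_eq]; exact hu.2⟩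
  have A2 : ∀ u v, Mx u → v ∉ Y → ¬ Mx v → Dv O Y v ≤ Dv O Y u := by
    intro u v hu hv hnv
    have h1 : u + v ∉ Y := fun h => hnv ⟨hv, by rw [← Dv_cls h]; exact hu.2⟩
    rcases M.tri hu.1 hv h1 with h2 | h2 | h2 | h2
    · exact h2.1
    · refine absurd ⟨hv, le_antisymm (hmax' _ hv) ?_⟩ hnv
      rw [← hu.2]; exact cle h2.1
    · rw [eq_of_le_card h2.1 (by rw [hu.2]; exact hmax' _ h1)]
      exact h2.2
    · exact absurd ⟨hv, by rw [← h2.card_eq]; exact hu.2⟩ hnv
  have mx0 : Mx u0 := ⟨hu0, rfl⟩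
  -- two different members
  obtain ⟨u1, m1, hne1⟩ : ∃ u, Mx u ∧ Dv O Y u ≠ Dv O Y u0 := by
    by_contra hc
    push Not at hc
    refine (bu u0 hu0).2 (M.spn sp Dv_le fun v hv => ?_)
    by_cases hm : Mx v
    · exact (hc v hm).le
    · exact A2 u0 v mx0 hv hm
  have A3 : ∀ u v, Mx u → Mx v → Dv O Y u = Dv O Y v → ¬ Mx (u + v) := by
    intro u v hu hv huv hw
    have e1 : Dv O Y (u + v) = Dv O Y u := by
      by_contra hne
      have := (A1 u (u + v) hu hw (Ne.symm hne)).1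
      rw [xx] at this
      exact this.ac huv.le
    obtain ⟨u', hu', hne'⟩ : ∃ u', Mx u' ∧ Dv O Y u ≠ Dv O Y u' := by
      by_cases h : Dv O Y u = Dv O Y u0
      · exact ⟨u1, m1, by rw [h]; exact Ne.symm hne1⟩
      · exact ⟨u0, mx0, h⟩
    obtain ⟨K1, -⟩ := A1 u u' hu hu' hne'
    obtain ⟨K2, m2⟩ := A1 v u' hv hu' (by rwa [← huv])
    obtain ⟨K3, -⟩ := A1 (u + v) u' hw hu' (by rwa [e1])
    rw [← huv] at K2
    rw [e1] at K3
    have e2 := K1.uniq K2
    have e3 := K1.uniq K3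
    have K4 := (A1 u (v + u') hu m2 (by
      rw [← e2]
      exact fun h => K1.ac h.le)).1
    rw [← add_assoc, ← e3, ← e2] at K4
    exact K4.bc le_rfl
  -- a slot `y` with `N_y` in `Mx`
  obtain ⟨d, hd, hd0⟩ : ∃ d ∈ Dv O Y u1, d ∉ Dv O Y u0 := by
    by_contra hc
    push Not at hc
    exact hne1 (eq_of_le_card hc (by rw [m1.2]))
  obtain ⟨y, hy, hyd⟩ := cm_span ⟨s0, hs0⟩ (sp d)
  have nm : ∀ n, O.C y n → Mx n := by
    intro n hn
    have sn : O.Sl n := Sl.right hn
    have h1 : d ∈ Dv O Y n := M.of_slot sn hd.1 (Sl.right (O.cz hn hyd))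
    by_contra hnm
    exact hd0 (A2 u0 n mx0 (M.av n sn) hnm h1)
  obtain ⟨n0, hn0⟩ := hy
  obtain ⟨a, ha, han⟩ := claim (Y := Y) (N := O.C y) (Mx := Mx) (D := Dv O Y) (by
    intro a b c ha hb hc
    exact O.cs (O.cs (zc (O.cc ha hb) hc))) hn0 nm (fun u v hu hv => by rw [hu.2, hv.2]) A1 A3
    (fun n => Dv_le) (fun n hn => (bu n hn.1).2)
  obtain ⟨y', hy', hya⟩ := cm_span ⟨s0, hs0⟩ (sp a)
  obtain ⟨n, h1, h2⟩ := common (⟨n0, hn0⟩ : O.Sl y) hy'
  exact han n h1 (M.of_slot (Sl.right h1) ha (Sl.right (O.cz h2 hya)))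

end MY

end Pool.Agent.ETPQ
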