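import Pool.Agent.ETPQ.Cl3

/-!
Note 2842 (helper88), sections 1-3, in the connected case: `Stab_W (M) = 0`, the cap and the
quadratic form.
-/

set_option autoImplicit false
set_option linter.unusedSimpArgs false
set_option linter.unnecessarySeqFocus false
set_option linter.unusedSectionVars false

namespace Pool.Agent.ETPQ

open Pool.Agent.ETPF (OS)
open Pool.Agent.ETPF.OS
open Pool.Agent.ETCP (ch2 ch3 ch4 eo)
open Pool.Agent.ETPG (mkS)
open ETC (zm)

variable {W : Type} [AddCommGroup W] [Module (ZMod 2) W]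

/-- the slots span and no hyperplane has a complement of slots -/
structure G0 (O : OS W) : Prop where
  sp : ∀ v, v ∈ Submodule.span (ZMod 2) {s | O.Sl s}
  nhp : ∀ l : Module.Dual (ZMod 2) W, l ≠ 0 → ∃ v, l v = 1 ∧ ¬ O.Sl v

theorem Geo.g0 {O : OS W} (X : Geo O) : G0 O := ⟨X.sp, X.nhp⟩

/-- a class which is not full, with differences of index two -/
def Bi (O : OS W) (Y : Submodule (ZMod 2) W) (v : W) : Prop := Bu O Y v ∧ Ix (Dv O Y v) Y

/-- the stabilizer of the set of full classes -/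
def PP (O : OS W) (Y : Submodule (ZMod 2) W) : Submodule (ZMod 2) W :=
  mkS (fun p => ∀ m, Fu O Y m → Fu O Y (m + p)) (fun m h => by rwa [add_zero])
    fun a b h h' m hm => by rw [← add_assoc]; exact h' _ (h _ hm)

namespace MY

variable {O : OS W} {Y : Submodule (ZMod 2) W} (M : MY O Y)

include M

theorem bi_cls {v v' : W} (h : v + v' ∈ Y) (hv : Bi O Y v) : Bi O Y v' :=
  ⟨hv.1.cls h, by rw [← Dv_cls h]; exact hv.2⟩

theorem b1 [Finite W] {u v : W} (hv : Bu O Y v) (hn : ¬ Ix (Dv O Y v) Y) (hu : Fu O Y u) :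
    Fu O Y (u + v) := by
  have h : u + v ∉ Y := fun h => (hu.cls h).not_Bu hv
  rcases Fu_or h with h1 | h1
  · exact h1
  · exact absurd (M.next hu hv h1).2 hn

theorem gen [Finite W] (X : G0 O) {T : Submodule (ZMod 2) W} (h : Y ≤ T)
    (h' : ∀ v, Bu O Y v → v ∈ T) (v : W) : v ∈ T := by
  by_contra hv
  obtain ⟨l, l1, l2⟩ := ETC.exists_dual_sep hv
  obtain ⟨w, hw, hws⟩ := X.nhp l (by
    rintro rfl
    exact zero_ne_one l1)
  have h1 : w ∉ T := fun h2 => by
    rw [l2 w h2] at hw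
    exact zero_ne_one hw
  exact h1 (h' w (M.bu_of (fun h2 => h1 (h h2)) hws))

theorem pr [Finite W] (X : G0 O) (hne : ∃ s, O.Sl s) :
    ∃ v w, Bu O Y v ∧ Bu O Y w ∧ Fu O Y (v + w) := by
  by_contra hcon
  push Not at hcon
  obtain ⟨m, hm⟩ := M.ex_full X.sp hne
  let T : Submodule (ZMod 2) W := mkS (fun v => v ∈ Y ∨ Bu O Y v) (Or.inl Y.zero_mem) (by
    rintro a b (ha | ha) (hb | hb)
    · exact Or.inl (Y.add_mem ha hb)
    · exact Or.inr (hb.cls (by
        rwa [show b + (a + b) = a from eo (by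
          abel_nf <;> simp only [ch2, ch3, ch4, add_zero, zero_add])]))
    · exact Or.inr (ha.cls (by rwa [xx]))
    · by_cases hab : a + b ∈ Y
      · exact Or.inl hab
      · exact Or.inr ((Fu_or hab).resolve_left (hcon a b ha hb)))
  rcases M.gen X (T := T) (fun y hy => Or.inl hy) (fun v hv => Or.inr hv) m with h | h
  · exact hm.1 h
  · exact hm.not_Bu h

theorem exBi [Finite W] (X : G0 O) (hne : ∃ s, O.Sl s) : ∃ v, Bi O Y v := by
  obtain ⟨v, w, hv, hw, hf⟩ := M.pr X hne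
  have := M.next hf hv (by
    rwa [show v + w + v = w from eo (by
      abel_nf <;> simp only [ch2, ch3, ch4, add_zero, zero_add])])
  exact ⟨v, hv, this.2⟩

/-- **(3a)** -/
theorem a3 [Finite W] {v w : W} (hv : Bi O Y v) (hw : Bi O Y w) (hne : Dv O Y v ≠ Dv O Y w) :
    Bi O Y (v + w) ∧ Kn (Dv O Y v) (Dv O Y w) (Dv O Y (v + w)) := by
  have h0 : v + w ∉ Y := fun h => hne (Dv_cls h)
  have e : v + w + v = w := eo (by abel_nf <;> simp only [ch2, ch3, ch4, add_zero, zero_add])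
  have h1 : Bu O Y (v + w) := (Fu_or h0).resolve_left fun hf => by
    have := M.next hf hv.1 (by rw [e]; exact hw.1)
    rw [e] at this
    exact hne this.1
  have K : Kn (Dv O Y v) (Dv O Y w) (Dv O Y (v + w)) := by
    rcases M.tri hv.1.1 hw.1.1 h0 with h2 | h2 | h2 | h2
    · rcases hw.2.eq_or h2.1 Dv_le with h3 | h3
      · exact absurd h3 hne
      · exact absurd h3.ge hv.1.2
    · rcases hv.2.eq_or h2.1 Dv_le with h3 | h3
      · exact absurd h3.symm hne
      · exact absurd h3.ge hw.1.2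
    · rcases hv.2.eq_or h2.1 Dv_le with h3 | h3
      · rcases hw.2.eq_or h2.2 Dv_le with h4 | h4
        · exact absurd (h3.symm.trans h4) hne
        · exact absurd h4.ge h1.2
      · exact absurd h3.ge h1.2
    · exact h2
  refine ⟨⟨h1, ?_⟩, K⟩
  obtain ⟨f, hf⟩ := hv.2.fn
  obtain ⟨g, hg⟩ := hw.2.fn
  have hk := K.fk Dv_le hw.2 hf hg
  obtain ⟨y, hy, hyn⟩ := SetLike.not_le_iff_exists.1 h1.2
  exact Fk.ix hk Dv_le hy (hk.one hy hyn)

/-- on `Y`, the functional of the sum -/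
theorem a3f [Finite W] {v w : W} (hv : Bi O Y v) (hw : Bi O Y w) (hne : Dv O Y v ≠ Dv O Y w)
    {f g : Module.Dual (ZMod 2) W} (hf : Fk f (Dv O Y v) Y) (hg : Fk g (Dv O Y w) Y) :
    Fk (f + g) (Dv O Y (v + w)) Y := (M.a3 hv hw hne).2.fk Dv_le hw.2 hf hg

omit M in
/-- different kernels -/
theorem ne_of {A B C : Submodule (ZMod 2) W} {f g h : Module.Dual (ZMod 2) W} (hA : Ix A Y)
    (hf : Fk f A Y) (hg : Fk g B Y) (hh : Fk h C Y) (e : ∀ y ∈ Y, h y = f y + g y) : B ≠ C := by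
  rintro rfl
  obtain ⟨y, hy, hyA⟩ := hA.ex
  have h1 := e y hy
  rw [hf.one hy hyA, hh.eqOn hg hy] at h1
  have : (0 : ZMod 2) = 1 := by
    have h2 : g y = 1 + g y := h1
    rcases zm (g y) with h3 | h3 <;> rw [h3] at h2 <;> revert h2 <;> decide
  exact zero_ne_one this

/-- **(3a)**, equal differences -/
theorem a3' [Finite W] {v w u : W} (hv : Bi O Y v) (hw : Bi O Y w) (hvw : Dv O Y v = Dv O Y w)
    (hu : Bi O Y u) (huv : Dv O Y u ≠ Dv O Y v) : ¬ Bi O Y (v + w) := by
  intro h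
  obtain ⟨f, hf⟩ := hv.2.fn
  obtain ⟨k, hk⟩ := hu.2.fn
  obtain ⟨g, hg⟩ := h.2.fn
  have hf' : Fk f (Dv O Y w) Y := by rwa [← hvw]
  have e1 : Dv O Y (v + w) = Dv O Y v := by
    by_contra hne
    have h1 := M.a3f hv h (Ne.symm hne) hf hg
    rw [xx] at h1
    obtain ⟨y, hy, hyn⟩ := h.2.ex
    have h2 := h1.eqOn hf' hy
    rw [LinearMap.add_apply, hg.one hy hyn] at h2
    rcases zm (f y) with h3 | h3 <;> rw [h3] at h2 <;> revert h2 <;> decide
  -- `u + v`
  have b1 := (M.a3 hu hv huv).1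
  have f1 := M.a3f hu hv huv hk hf
  have n1 : Dv O Y (u + v) ≠ Dv O Y w := by
    rw [← hvw]
    exact (ne_of hu.2 hk hf f1 fun y _ => rfl).symm
  have f2 := M.a3f b1 hw n1 f1 hf'
  have n2 : Dv O Y u ≠ Dv O Y (v + w) := by rw [e1]; exact huv
  have f3 := M.a3f hu h n2 hk (g := f) (by rwa [e1])
  rw [← add_assoc] at f3
  obtain ⟨y, hy, hyn⟩ := hv.2.ex
  have h4 := f2.eqOn f3 hy
  simp only [LinearMap.add_apply, hf.one hy hyn] at h4
  rcases zm (k y) with h3 | h3 <;> rw [h3] at h4 <;> revert h4 <;> decide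

/-- **(3b)**, the dichotomy -/
theorem dich [Finite W] {m v v' : W} (hm : Fu O Y m) (hv : Bi O Y v) (hv' : Bi O Y v')
    (h : Fu O Y (v + m)) (hne : Dv O Y v ≠ Dv O Y v') : Fu O Y (v' + m) := by
  by_contra hcon
  have h0 : v' + m ∉ Y := fun h1 => by
    have := hm.cls (v' := v') (by rwa [add_comm])
    exact this.not_Bu hv'.1
  have h1 : Bu O Y (m + v') := by
    rw [add_comm]
    exact (Fu_or h0).resolve_left hcon
  have h2 := M.next hm hv'.1 h1
  have b2 : Bi O Y (v' + m) := by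
    rw [add_comm]
    exact ⟨h1, by rw [← h2.1]; exact h2.2⟩
  have e2 : Dv O Y (v' + m) = Dv O Y v' := by rw [add_comm v' m]; exact h2.1.symm
  obtain ⟨f, hf⟩ := hv.2.fn
  obtain ⟨g, hg⟩ := hv'.2.fn
  have n1 : Dv O Y v ≠ Dv O Y (v' + m) := by rwa [e2]
  have b3 := (M.a3 hv b2 n1).1
  have f3 := M.a3f hv b2 n1 hf (g := g) (by rwa [e2])
  have n2 : Dv O Y v' ≠ Dv O Y (v + (v' + m)) := ne_of hv.2 hf hg f3 fun y _ => rfl
  have b4 := (M.a3 hv' b3 n2).1
  rw [show v' + (v + (v' + m)) = v + m from eo (by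
    abel_nf <;> simp only [ch2, ch3, ch4, add_zero, zero_add])] at b4
  exact h.not_Bu b4.1

theorem dich' [Finite W] {m v v' u : W} (hm : Fu O Y m) (hv : Bi O Y v) (hv' : Bi O Y v')
    (h : Fu O Y (v + m)) (hu : Bi O Y u) (huv : Dv O Y u ≠ Dv O Y v) : Fu O Y (v' + m) := by
  by_cases hne : Dv O Y v = Dv O Y v'
  · have h1 := M.dich hm hv hu h huv.symm
    exact M.dich hm hu hv' h1 (by rwa [← hne])
  · exact M.dich hm hv hv' h hne

/-- **(3b)** -/
theorem b3 [Finite W] (X : G0 O) {u u' : W} (hu : Bi O Y u) (hu' : Bi O Y u')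
    (huu : Dv O Y u ≠ Dv O Y u') {v m : W} (hv : Bi O Y v) (hm : Fu O Y m) :
    Bi O Y (v + m) ∧ Dv O Y (v + m) = Dv O Y v := by
  have D' : ∀ {m v v' : W}, Fu O Y m → Bi O Y v → Bi O Y v' → Fu O Y (v + m) →
      Fu O Y (v' + m) := by
    intro m v v' hm hv hv' h
    by_cases hne : Dv O Y u = Dv O Y v
    · exact M.dich' hm hv hv' h hu' (by rw [← hne]; exact huu.symm)
    · exact M.dich' hm hv hv' h hu hne
  have key : ∀ m, Fu O Y m → ∀ v, Bi O Y v → ¬ Fu O Y (v + m) := by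
    intro m hm v hv h
    let M1 : W → Prop := fun m => Fu O Y m ∧ ∀ v, Bi O Y v → Fu O Y (v + m)
    have m1 : M1 m := ⟨hm, fun v' hv' => D' hm hv hv' h⟩
    let T : Submodule (ZMod 2) W := mkS (fun x => ∀ m, M1 m → M1 (m + x))
      (fun m h => by rwa [add_zero])
      fun a b h h' m hm => by rw [← add_assoc]; exact h' _ (h _ hm)
    have hT : m ∈ T := by
      refine M.gen X (T := T) (fun y hy m' hm' => ⟨hm'.1.cls (by rwa [xx]), fun v hv =>
        (hm'.2 v hv).cls ?_⟩) (fun b hb m' hm' => ?_) m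
      · rwa [show v + m' + (v + (m' + y)) = y from eo (by
          abel_nf <;> simp only [ch2, ch3, ch4, add_zero, zero_add])]
      · by_cases hbi : Ix (Dv O Y b) Y
        · have h1 : Fu O Y (m' + b) := by rw [add_comm]; exact hm'.2 b ⟨hb, hbi⟩
          refine ⟨h1, fun v hv => ?_⟩
          exact D' h1 ⟨hb, hbi⟩ hv (by
            rw [show b + (m' + b) = m' from eo (by
              abel_nf <;> simp only [ch2, ch3, ch4, add_zero, zero_add])]
            exact hm'.1)
        · refine ⟨M.b1 hb hbi hm'.1, fun v hv => ?_⟩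
          rw [← add_assoc]
          exact M.b1 hb hbi (hm'.2 v hv)
    have := (hT m m1).1.1
    rw [tt] at this
    exact this Y.zero_mem
  have h0 : m + v ∉ Y := fun h1 => (hm.cls h1).not_Bu hv.1
  have h1 : Bu O Y (m + v) := (Fu_or h0).resolve_left (by
    rw [add_comm]
    exact key m hm v hv)
  have h2 := M.next hm hv.1 h1
  rw [add_comm v m]
  exact ⟨⟨h1, by rw [← h2.1]; exact h2.2⟩, h2.1.symm⟩

theorem Y_le_PP : Y ≤ PP O Y := fun y hy m hm => hm.cls (by rwa [xx])

omit M in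
theorem not_fu_PP {p : W} (hp : p ∈ PP O Y) : ¬ Fu O Y p := by
  intro h
  have := (hp p h).1
  rw [tt] at this
  exact this Y.zero_mem

/-- classes outside `PP` which are not full -/
theorem bi_PP [Finite W] {t : W} (h : Bu O Y t) (ht : t ∉ PP O Y) : Bi O Y t := by
  refine ⟨h, ?_⟩
  by_contra hn
  exact ht fun m' hm' => M.b1 h hn hm'

/-- the shift of a class outside `PP` by an element of `PP` -/
theorem shift [Finite W] (X : G0 O) {m s t : W} (hm : Fu O Y m) (hs : s ∈ PP O Y)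
    (ht : Bi O Y t) (htP : t ∉ PP O Y) :
    Bi O Y (s + t) ∧ s + t ∉ PP O Y ∧ Dv O Y (s + t) = Dv O Y t := by
  have hstP : s + t ∉ PP O Y := fun h => htP (by
    have := (PP O Y).add_mem hs h
    rwa [xx] at this)
  have hstY : s + t ∉ Y := fun h => hstP (M.Y_le_PP h)
  have bst : Bu O Y (s + t) := (Fu_or hstY).resolve_left fun h => by
    have h2 := hs _ h
    rw [show s + t + s = t from eo (by
      abel_nf <;> simp only [ch2, ch3, ch4, add_zero, zero_add])] at h2
    exact h2.not_Bu ht.1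
  have ist := M.bi_PP bst hstP
  refine ⟨ist, hstP, ?_⟩
  by_contra hne
  have h2 := (M.a3 ist ht hne).1
  rw [xy] at h2
  have h3 := (M.b3 X ist ht hne h2 hm).1
  have h4 := hs m hm
  rw [add_comm] at h4
  exact h4.not_Bu h3.1

theorem le_shift [Finite W] (X : G0 O) {m s t : W} (hm : Fu O Y m) (hs : s ∈ PP O Y)
    (hsY : s ∉ Y) (ht : Bi O Y t) (htP : t ∉ PP O Y) : Dv O Y s ≤ Dv O Y t := by
  obtain ⟨bst, hstP, e⟩ := M.shift X hm hs ht htP
  have bs : Bu O Y s := (Fu_or hsY).resolve_left (not_fu_PP hs)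
  rcases M.tri hsY ht.1.1 bst.1.1 with h2 | h2 | h2 | h2
  · rcases ht.2.eq_or h2.1 Dv_le with h3 | h3
    · exact h3.le
    · exact absurd h3.ge bs.2
  · exact h2.1
  · rw [← e]; exact h2.1
  · exact absurd e.ge h2.bc

/-- the main step: `PP` contains no slot -/
theorem PP_nslot [Finite W] (X : Geo O) {s : W} (hs : O.Sl s) : s ∉ PP O Y := by
  intro hsP
  obtain ⟨m, hm⟩ := M.ex_full X.sp ⟨s, hs⟩
  obtain ⟨s, t, hs, ht, hsP, htP, hst⟩ := X.cn (fun v => v ∈ PP O Y) ⟨s, hs, hsP⟩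
    ⟨m, M.fu_slot hm, fun h => not_fu_PP h hm⟩
  apply hst
  rcases Fu_or (M.av t ht) with h1 | h1
  · have := hsP t h1
    rw [add_comm] at this
    exact M.fu_slot this
  · have bt : Bi O Y t := M.bi_PP h1 htP
    obtain ⟨bst, hstP, e⟩ := M.shift X.g0 hm hsP bt htP
    have hle := M.le_shift X.g0 hm hsP (M.av s hs) bt htP
    obtain ⟨r, hr, hrst⟩ := M.ex bst.1.1
    have er : Dv O Y r = Dv O Y t := by rw [Dv_cls hrst, e]
    have h2 : s + t + r ∈ Dv O Y r := by
      rcases M.line hs ht hr (by rwa [add_comm]) with h3 | h3 | h3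
      · rw [er]; exact hle h3
      · rwa [er]
      · exact h3
    have h3 := M.slot_add hr h2
    rwa [show r + (s + t + r) = s + t from eo (by
      abel_nf <;> simp only [ch2, ch3, ch4, add_zero, zero_add])] at h3

theorem PP_eq [Finite W] (X : Geo O) : Y = PP O Y :=
  eq_of_le_card M.Y_le_PP (M.mx _ fun _ hs => M.PP_nslot X hs)

/-- all classes which are not full have differences of index two -/
theorem bi [Finite W] (X : Geo O) {v : W} (hv : Bu O Y v) : Bi O Y v := by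
  refine ⟨hv, ?_⟩
  by_contra hn
  apply hv.1
  rw [M.PP_eq X]
  exact fun m hm => M.b1 hv hn hm

/-- every non-slot is in a slot-free subspace of maximal dimension -/
theorem move [Finite W] (X : Geo O) {n : W} (hn : ¬ O.Sl n) : ∃ Y', MY O Y' ∧ n ∈ Y' := by
  by_cases h : n ∈ Y
  · exact ⟨Y, M, h⟩
  · have b := M.bi X (M.bu_of h hn)
    have hnD : n ∉ Dv O Y n := fun h1 => h (Dv_le h1)
    have hc : Nat.card (ad (Dv O Y n) n) = Nat.card Y := by rw [card_ad hnD, b.2.card]
    refine ⟨ad (Dv O Y n) n, ⟨M.n3, ?_, fun Y' h' => by rw [hc]; exact M.mx Y' h'⟩, self_ad⟩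
    rintro s hs (h1 | h1)
    · exact M.av s hs (Dv_le h1)
    · apply hn
      have := h1.2 s hs (Dv_le h1)
      rwa [xx] at this

/-- the case `j = 1`: a cap -/
theorem cap_data [Finite W] (X : Geo O) {v0 : W} (h0 : Bi O Y v0)
    (h : ∀ v, Bi O Y v → Dv O Y v = Dv O Y v0) :
    (∀ s, O.Sl s → s ∉ Dv O Y v0) ∧ (∀ s g, O.Sl s → g ∈ Dv O Y v0 → O.Sl (s + g)) ∧
    (∀ a b, ¬ O.Sl a → ¬ O.Sl b → a ∉ Dv O Y v0 → b ∉ Dv O Y v0 → a + b ∉ Dv O Y v0 →
      O.Sl (a + b)) := by
  have inv : ∀ s g, O.Sl s → g ∈ Dv O Y v0 → O.Sl (s + g) := by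
    intro s g hs hg
    rcases Fu_or (M.av s hs) with h1 | h1
    · exact M.fu_slot (h1.cls (by rw [xx]; exact Dv_le hg))
    · exact M.slot_add hs (by rw [h s (M.bi X h1)]; exact hg)
  refine ⟨fun s hs h1 => M.av s hs (Dv_le h1), inv, fun a b ha hb haG hbG habG => ?_⟩
  by_contra hcon
  have hb' : b ∉ ad (Dv O Y v0) a := by
    rintro (h1 | h1)
    · exact hbG h1
    · exact habG (by rwa [add_comm])
  have h1 := M.mx (ad (ad (Dv O Y v0) a) b) (by
    rintro s hs ((h1 | h1) | (h1 | h1))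
    · exact M.av s hs (Dv_le h1)
    · apply ha
      have := inv s _ hs h1
      rwa [xx] at this
    · apply hb
      have := inv s _ hs h1
      rwa [xx] at this
    · apply hcon
      have := inv s _ hs h1
      rwa [show s + (s + b + a) = a + b from eo (by
        abel_nf <;> simp only [ch2, ch3, ch4, add_zero, zero_add])] at this)
  rw [card_ad hb', card_ad haG, h0.2.card] at h1
  have := card_pos (Dv O Y v0)
  omega

end MY

/-! ### the quadratic form -/

open Classical in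
/-- the characteristic function of the slots -/
noncomputable def qs (O : OS W) (x : W) : ZMod 2 := if O.Sl x then 1 else 0

theorem qs_true {O : OS W} {x : W} (h : O.Sl x) : qs O x = 1 := if_pos h

theorem qs_false {O : OS W} {x : W} (h : ¬ O.Sl x) : qs O x = 0 := if_neg h

theorem qs_iff {O : OS W} {x : W} : O.Sl x ↔ qs O x = 1 := by
  by_cases h : O.Sl x
  · simp [qs_true h, h]
  · simp [qs_false h, h]

namespace MY

variable {O : OS W} {Y : Submodule (ZMod 2) W} (M : MY O Y)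

include M

theorem dq_Y {x y : W} (hx : x ∈ Y) (hy : y ∈ Y) : qs O (x + y) + qs O x = 0 := by
  rw [qs_false (M.nslot (Y.add_mem hx hy)), qs_false (M.nslot hx), add_zero]

theorem dq_fu [Finite W] {x y : W} (hx : Fu O Y x) (hy : y ∈ Y) :
    qs O (x + y) + qs O x = 0 := by
  rw [qs_true (M.fu_slot (hx.cls (v' := x + y) (by rwa [xx]))), qs_true (M.fu_slot hx)]
  decide

theorem dq_bi [Finite W] {x y : W} (hx : Bi O Y x) (hy : y ∈ Y)
    {f : Module.Dual (ZMod 2) W} (hf : Fk f (Dv O Y x) Y) : qs O (x + y) + qs O x = f y := by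
  by_cases h : y ∈ Dv O Y x
  · rw [(hf y hy).2 h]
    by_cases hs : O.Sl x
    · rw [qs_true hs, qs_true (M.slot_add hs h)]; decide
    · rw [qs_false hs, qs_false, add_zero]
      intro h1
      apply hs
      have := h.2 _ h1 (by
        rwa [show x + y + x = y from eo (by
          abel_nf <;> simp only [ch2, ch3, ch4, add_zero, zero_add])])
      rwa [xy] at this
  · rw [hf.one hy h]
    by_cases hs : O.Sl x
    · rw [qs_true hs, qs_false, zero_add]
      exact fun h1 => h (M.of_slot hs hy h1)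
    · rw [qs_false hs, qs_true, add_zero]
      by_contra h1
      obtain ⟨s, ss, hsx⟩ := M.ex hx.1.1
      apply h
      have h2 : s + x ∉ Dv O Y x := fun h3 => hs (by
        have := h3.2 s ss hsx
        rwa [xx] at this)
      have h3 : s + x + y ∉ Dv O Y x := fun h3 => h1 (by
        have := h3.2 s ss hsx
        rwa [show s + (s + x + y) = x + y from eo (by
          abel_nf <;> simp only [ch2, ch3, ch4, add_zero, zero_add])] at this)
      have := hx.2.ix _ hsx h2 _ (Y.add_mem hsx hy) h3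
      rwa [xx] at this

/-- `x ↦ q (x + y) + q x` is additive for `y ∈ Y` -/
theorem lin [Finite W] (X : Geo O) {u u' : W} (hu : Bi O Y u) (hu' : Bi O Y u')
    (huu : Dv O Y u ≠ Dv O Y u') {y : W} (hy : y ∈ Y) (x x' : W) :
    qs O (x + x' + y) + qs O (x + x') =
      (qs O (x + y) + qs O x) + (qs O (x' + y) + qs O x') := by
  have st : ∀ x, (x ∈ Y ∨ Fu O Y x) ∨ Bi O Y x := by
    intro x
    by_cases h : x ∈ Y
    · exact Or.inl (Or.inl h)
    · rcases Fu_or h with h1 | h1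
      · exact Or.inl (Or.inr h1)
      · exact Or.inr (M.bi X h1)
  have z : ∀ x, x ∈ Y ∨ Fu O Y x → qs O (x + y) + qs O x = 0 := by
    rintro x (h | h)
    · exact M.dq_Y h hy
    · exact M.dq_fu h hy
  -- `Bi + Z`
  have bz : ∀ x x', Bi O Y x → (x' ∈ Y ∨ Fu O Y x') →
      Bi O Y (x + x') ∧ Dv O Y (x + x') = Dv O Y x := by
    rintro x x' hx (h | h)
    · have h1 : x + (x + x') ∈ Y := by rwa [xx]
      exact ⟨M.bi_cls h1 hx, (Dv_cls h1).symm⟩
    · exact M.b3 X.g0 hu hu' huu hx h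
  have zz : ∀ x x', (x ∈ Y ∨ Fu O Y x) → (x' ∈ Y ∨ Fu O Y x') → ¬ Bi O Y (x + x') := by
    intro x x' hx hx' h
    have h1 := (bz _ _ h hx).1
    rw [show x + x' + x = x' from eo (by
      abel_nf <;> simp only [ch2, ch3, ch4, add_zero, zero_add])] at h1
    rcases hx' with h2 | h2
    · exact h1.1.1 h2
    · exact h2.not_Bu h1.1
  rcases st x with hx | hx
  · rcases st x' with hx' | hx'
    · rw [z x hx, z x' hx', add_zero]
      exact z _ ((st (x + x')).resolve_right (zz x x' hx hx'))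
    · obtain ⟨h1, h2⟩ := bz x' x hx' hx
      rw [add_comm x' x] at h1 h2
      obtain ⟨f, hf⟩ := hx'.2.fn
      rw [z x hx, zero_add, M.dq_bi hx' hy hf, M.dq_bi h1 hy (by rwa [h2])]
  · obtain ⟨f, hf⟩ := hx.2.fn
    rcases st x' with hx' | hx'
    · obtain ⟨h1, h2⟩ := bz x x' hx hx'
      rw [z x' hx', add_zero, M.dq_bi hx hy hf, M.dq_bi h1 hy (by rwa [h2])]
    · obtain ⟨g, hg⟩ := hx'.2.fn
      rw [M.dq_bi hx hy hf, M.dq_bi hx' hy hg]
      by_cases hne : Dv O Y x = Dv O Y x'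
      · have h1 : ¬ Bi O Y (x + x') := by
          by_cases h2 : Dv O Y u = Dv O Y x
          · exact M.a3' hx hx' hne hu' (by rw [← h2]; exact huu.symm)
          · exact M.a3' hx hx' hne hu h2
        rw [z _ ((st (x + x')).resolve_right h1)]
        rw [← hne] at hg
        rw [hf.eqOn hg hy, tt]
      · have h1 := M.a3 hx hx' hne
        rw [M.dq_bi h1.1 hy (M.a3f hx hx' hne hf hg), LinearMap.add_apply]

end MY

end Pool.Agent.ETPQ
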